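import Pool.Agent.Helper18.NF.Stmts

set_option autoImplicit false

/-! # CVP: geometric sections -/

namespace Pool.Agent.Helper18.NF

open Pool.Agent.Helper14.BSC Polynomial

theorem st_CVP (hHEN : ST_HEN) : ST_CVP := by
  intro k K Ω _ _ _ _ _ _ _ _ _ _ D O hfix hO
  obtain ⟨hne, hk, hres, W, hW, hinv⟩ := hO
  have hex : ∃ u : K, u ∉ O := by
    by_contra hcon
    push Not at hcon
    apply hne
    exact eq_top_iff.2 fun x _ => hcon x
  obtain ⟨u, hu⟩ := hex
  have hu0 : u ≠ 0 := fun h => hu (by rw [h]; exact O.zero_mem)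
  have hmem : ∀ x : K, algebraMap K Ω x ∈ W ↔ x ∈ O := by
    intro x
    rw [← hW, ValuationSubring.mem_comap]
  have hkW : ∀ c : k, algebraMap k Ω c ∈ W := by
    intro c
    rw [IsScalarTower.algebraMap_apply k K Ω, hmem]
    exact hk c
  have huW : algebraMap K Ω u ∉ W := fun h => hu ((hmem u).1 h)
  have hval : W.valuation (algebraMap K Ω u)⁻¹ < 1 := by
    have h1 : ¬ W.valuation (algebraMap K Ω u) ≤ 1 := fun h =>
      huW ((W.valuation_le_one_iff _).1 h)
    rw [map_inv₀]
    exact inv_lt_one_of_one_lt₀ (not_le.1 h1)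
  have hfD : algebraMap K Ω (1 + u⁻¹) ∈ LL D := fun g _ => hfix g _
  refine ⟨1 + u⁻¹, ?_, ?_⟩
  · intro c hc
    apply hu
    have h1 : u⁻¹ = algebraMap k K (c - 1) := by
      rw [map_sub, map_one, ← hc]; ring
    have h2 : u = algebraMap k K (c - 1)⁻¹ := by
      rw [map_inv₀, ← h1, inv_inv]
    rw [h2]
    exact hk _
  · intro n hn
    obtain ⟨y, hy⟩ := hHEN k Ω D W hkW hinv ⟨_, hfD⟩ (by
      show W.valuation (algebraMap K Ω (1 + u⁻¹) - 1) < 1
      rw [map_add, map_one, add_sub_cancel_left, map_inv₀]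
      exact hval) n hn
    refine ⟨y, ?_⟩
    have := congrArg (fun z : LL D => (z : Ω)) hy
    simpa using this

end Pool.Agent.Helper18.NF
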