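import Mathlib

/-!
# The group of points of `y² = x³ + a x + b` over extensions of a field: a clean interface

`EP a b F` is the group of `F`-points of the curve `y² = x³ + a x + b`, `a b : k`, for a field `F ⊇ k`
(Mathlib's group law), `EP.pt hΔ x y h` is the point `(x, y)`, `EP.map f` is the map induced by a
`k`-algebra homomorphism.
-/

set_option autoImplicit false

namespace Pool.Agent.Helper18.NF

open WeierstrassCurve.Affine

/-- the curve `y² = x³ + a x + b` -/
def SW {k : Type} [Field k] (a b : k) : WeierstrassCurve.Affine k :=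
  { a₁ := 0, a₂ := 0, a₃ := 0, a₄ := a, a₆ := b }

/-- the equation of the curve over `F ⊇ k` -/
def Eq3 {k F : Type} [Field k] [Field F] [Algebra k F] (a b : k) (x y : F) : Prop :=
  y ^ 2 = x ^ 3 + algebraMap k F a * x + algebraMap k F b

/-- the group of `F`-points of the curve -/
def EP {k : Type} [Field k] (a b : k) (F : Type) [Field F] [Algebra k F] : Type :=
  ((SW a b)⁄F).Point

open Classical in
noncomputable instance {k : Type} [Field k] (a b : k) (F : Type) [Field F] [Algebra k F] :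
    AddCommGroup (EP a b F) :=
  inferInstanceAs (AddCommGroup ((SW a b)⁄F).Point)

section

variable {k : Type} [Field k] {a b : k} {F : Type} [Field F] [Algebra k F]

theorem SW_a₁ : ((SW a b)⁄F).a₁ = 0 := map_zero (algebraMap k F)
theorem SW_a₂ : ((SW a b)⁄F).a₂ = 0 := map_zero (algebraMap k F)
theorem SW_a₃ : ((SW a b)⁄F).a₃ = 0 := map_zero (algebraMap k F)
theorem SW_a₄ : ((SW a b)⁄F).a₄ = algebraMap k F a := rfl
theorem SW_a₆ : ((SW a b)⁄F).a₆ = algebraMap k F b := rfl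

theorem SW_equation_iff (x y : F) : ((SW a b)⁄F).Equation x y ↔ Eq3 a b x y := by
  rw [WeierstrassCurve.Affine.equation_iff]
  simp only [Eq3, SW_a₁, SW_a₂, SW_a₃, SW_a₄, SW_a₆]
  constructor
  · intro h
    linear_combination h
  · intro h
    linear_combination h

theorem SW_negY (x y : F) : ((SW a b)⁄F).negY x y = -y := by
  simp only [WeierstrassCurve.Affine.negY, SW_a₁, SW_a₃]
  ring

theorem SW_nonsingular [CharZero F] (hΔ : 4 * a ^ 3 + 27 * b ^ 2 ≠ 0) {x y : F} (h : Eq3 a b x y) :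
    ((SW a b)⁄F).Nonsingular x y := by
  rw [WeierstrassCurve.Affine.nonsingular_iff, SW_equation_iff]
  refine ⟨h, ?_⟩
  simp only [SW_a₁, SW_a₂, SW_a₃, SW_a₄]
  by_contra hcon
  push Not at hcon
  obtain ⟨h1, h2⟩ := hcon
  have hy : y = 0 := by
    have : (2 : F) * y = 0 := by linear_combination h2
    simpa using this
  unfold Eq3 at h
  rw [hy] at h h1
  have h3 : x ^ 3 + algebraMap k F a * x + algebraMap k F b = 0 := by
    rw [← h]; ring
  have h4 : 3 * x ^ 2 + algebraMap k F a = 0 := by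
    linear_combination -h1
  apply hΔ
  apply (algebraMap k F).injective
  rw [map_zero, map_add, map_mul, map_mul, map_pow, map_pow, map_ofNat, map_ofNat]
  linear_combination (27 * algebraMap k F b - 18 * algebraMap k F a * x) * h3 +
    (-27 * 0 * x + 4 * algebraMap k F a ^ 2 + 6 * algebraMap k F a * x ^ 2 -
      9 * algebraMap k F b * x) * h4

/-- the point `(x, y)` -/
def EP.pt [CharZero F] (hΔ : 4 * a ^ 3 + 27 * b ^ 2 ≠ 0) (x y : F) (h : Eq3 a b x y) : EP a b F :=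
  WeierstrassCurve.Affine.Point.some x y (SW_nonsingular hΔ h)

variable [CharZero F] (hΔ : 4 * a ^ 3 + 27 * b ^ 2 ≠ 0)

include hΔ in
theorem EP.cases (P : EP a b F) : P = 0 ∨ ∃ (x y : F) (h : Eq3 a b x y), P = EP.pt hΔ x y h := by
  rcases P with _ | ⟨x, y, h⟩
  · exact Or.inl rfl
  · exact Or.inr ⟨x, y, (SW_equation_iff x y).1 h.1, rfl⟩

theorem EP.pt_ne_zero {x y : F} (h : Eq3 a b x y) : EP.pt hΔ x y h ≠ 0 :=
  WeierstrassCurve.Affine.Point.some_ne_zero _

theorem EP.pt_inj {x y x' y' : F} {h : Eq3 a b x y} {h' : Eq3 a b x' y'}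
    (heq : EP.pt hΔ x y h = EP.pt hΔ x' y' h') : x = x' ∧ y = y' :=
  WeierstrassCurve.Affine.Point.some.inj heq

theorem EP.pt_congr {x y x' y' : F} {h : Eq3 a b x y} {h' : Eq3 a b x' y'} (hx : x = x')
    (hy : y = y') : EP.pt hΔ x y h = EP.pt hΔ x' y' h' := by
  subst hx; subst hy; rfl

omit [CharZero F] in
theorem Eq3.neg {x y : F} (h : Eq3 a b x y) : Eq3 a b x (-y) := by
  unfold Eq3 at h ⊢
  rw [neg_sq, h]

theorem EP.neg_pt {x y : F} (h : Eq3 a b x y) : -EP.pt hΔ x y h = EP.pt hΔ x (-y) h.neg := by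
  classical
  have h1 := WeierstrassCurve.Affine.Point.neg_some (W' := (SW a b)⁄F) (SW_nonsingular hΔ h)
  have h2 : ((SW a b)⁄F).negY x y = -y := SW_negY x y
  refine Eq.trans h1 ?_
  unfold EP.pt
  congr 1

/-- addition of points with different `x`-coordinates -/
theorem EP.add_of_x_ne {x₁ y₁ x₂ y₂ : F} (h₁ : Eq3 a b x₁ y₁) (h₂ : Eq3 a b x₂ y₂) (hx : x₁ ≠ x₂) :
    ∃ (x₃ y₃ : F) (h₃ : Eq3 a b x₃ y₃), EP.pt hΔ x₁ y₁ h₁ + EP.pt hΔ x₂ y₂ h₂ = EP.pt hΔ x₃ y₃ h₃ ∧
      x₃ = ((y₁ - y₂) / (x₁ - x₂)) ^ 2 - x₁ - x₂ ∧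
      y₃ = -((y₁ - y₂) / (x₁ - x₂) * (x₃ - x₁) + y₁) := by
  classical
  have h0 := WeierstrassCurve.Affine.Point.add_of_X_ne (W := (SW a b)⁄F) (h₁ := SW_nonsingular hΔ h₁)
    (h₂ := SW_nonsingular hΔ h₂) hx
  refine ⟨_, _, (SW_equation_iff _ _).1 (WeierstrassCurve.Affine.nonsingular_add
    (SW_nonsingular hΔ h₁) (SW_nonsingular hΔ h₂) fun hxy => hx hxy.left).1, h0, ?_, ?_⟩
  · rw [WeierstrassCurve.Affine.slope_of_X_ne hx]
    simp only [WeierstrassCurve.Affine.addX, SW_a₁, SW_a₂]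
    ring
  · rw [WeierstrassCurve.Affine.slope_of_X_ne hx]
    simp only [WeierstrassCurve.Affine.addX, WeierstrassCurve.Affine.addY,
      WeierstrassCurve.Affine.negAddY, WeierstrassCurve.Affine.negY, SW_a₁, SW_a₂, SW_a₃]
    ring

/-- doubling -/
theorem EP.add_self {x y : F} (h : Eq3 a b x y) (hy : y ≠ 0) :
    ∃ (x₃ y₃ : F) (h₃ : Eq3 a b x₃ y₃), EP.pt hΔ x y h + EP.pt hΔ x y h = EP.pt hΔ x₃ y₃ h₃ ∧
      x₃ = ((3 * x ^ 2 + algebraMap k F a) / (2 * y)) ^ 2 - 2 * x ∧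
      y₃ = -((3 * x ^ 2 + algebraMap k F a) / (2 * y) * (x₃ - x) + y) := by
  classical
  have hne : y ≠ ((SW a b)⁄F).negY x y := by
    rw [SW_negY]
    intro h1
    apply hy
    have h2 : (2 : F) * y = 0 := by linear_combination h1
    simpa using h2
  have h0 := WeierstrassCurve.Affine.Point.add_self_of_Y_ne (W := (SW a b)⁄F)
    (h₁ := SW_nonsingular hΔ h) hne
  have hsl : ((SW a b)⁄F).slope x x y y = (3 * x ^ 2 + algebraMap k F a) / (2 * y) := by
    rw [WeierstrassCurve.Affine.slope_of_Y_ne rfl hne, SW_negY]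
    simp only [SW_a₁, SW_a₂, SW_a₃, SW_a₄]
    congr 1
    · ring
    · ring
  refine ⟨_, _, (SW_equation_iff _ _).1 (WeierstrassCurve.Affine.nonsingular_add
    (SW_nonsingular hΔ h) (SW_nonsingular hΔ h) fun hxy => hne hxy.right).1, h0, ?_, ?_⟩
  · rw [hsl]
    simp only [WeierstrassCurve.Affine.addX, SW_a₁, SW_a₂]
    ring
  · rw [hsl]
    simp only [WeierstrassCurve.Affine.addX, WeierstrassCurve.Affine.addY,
      WeierstrassCurve.Affine.negAddY, WeierstrassCurve.Affine.negY, SW_a₁, SW_a₂, SW_a₃]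
    ring

theorem EP.add_neg_zero {x y : F} (h : Eq3 a b x y) :
    EP.pt hΔ x y h + EP.pt hΔ x (-y) h.neg = 0 := by
  rw [← EP.neg_pt hΔ h, add_neg_cancel]

theorem EP.x_eq {x y y' : F} (h : Eq3 a b x y) (h' : Eq3 a b x y') :
    EP.pt hΔ x y h = EP.pt hΔ x y' h' ∨ EP.pt hΔ x y h = -EP.pt hΔ x y' h' := by
  have h1 : y ^ 2 = y' ^ 2 := by
    unfold Eq3 at h h'
    rw [h, h']
  rcases sq_eq_sq_iff_eq_or_eq_neg.1 h1 with h2 | h2
  · exact Or.inl (EP.pt_congr hΔ rfl h2)
  · refine Or.inr ?_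
    rw [EP.neg_pt hΔ h']
    exact EP.pt_congr hΔ rfl h2

end

section

variable {k : Type} [Field k] {a b : k} {F F' F'' : Type} [Field F] [Algebra k F] [Field F']
  [Algebra k F'] [Field F''] [Algebra k F'']

open Classical in
/-- functoriality -/
noncomputable def EP.map (f : F →ₐ[k] F') : EP a b F →+ EP a b F' :=
  WeierstrassCurve.Affine.Point.map (W' := SW a b) f

theorem Eq3.map {x y : F} (f : F →ₐ[k] F') (h : Eq3 a b x y) : Eq3 a b (f x) (f y) := by
  unfold Eq3 at h ⊢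
  rw [← map_pow, h, map_add, map_add, map_mul, map_pow, AlgHom.commutes, AlgHom.commutes]

theorem EP.map_pt [CharZero F] [CharZero F'] (hΔ : 4 * a ^ 3 + 27 * b ^ 2 ≠ 0) (f : F →ₐ[k] F')
    {x y : F} (h : Eq3 a b x y) : EP.map f (EP.pt hΔ x y h) = EP.pt hΔ (f x) (f y) (h.map f) := rfl

theorem EP.map_map (f : F →ₐ[k] F') (g : F' →ₐ[k] F'') (P : EP a b F) :
    EP.map g (EP.map f P) = EP.map (g.comp f) P := by
  classical
  exact WeierstrassCurve.Affine.Point.map_map (W' := SW a b) f g P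

theorem EP.map_id (P : EP a b F) : EP.map (AlgHom.id k F) P = P := by
  cases P <;> rfl

theorem EP.map_injective (f : F →ₐ[k] F') : Function.Injective (EP.map (a := a) (b := b) f) := by
  classical
  exact WeierstrassCurve.Affine.Point.map_injective (W' := SW a b) f

end

end Pool.Agent.Helper18.NF
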