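import Pool.Agent.Helper18.NF.Stmts
import Pool.Agent.Helper18.NF.Pts
import Pool.Agent.Helper22.FF.Abs

/-!
# Birational sections over number fields and rational dynamics: exact statements, part 2

`E : y² = x³ + a x + b` an elliptic curve over the number field `k` with bounded `p`-power Selmer groups
for ONE prime `p`.  A section `D` such that `E(LL D)` has a nonconstant point is geometric.
Proofs of all modules: /team-store/h18_nf_blueprint.md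
-/

set_option autoImplicit false

namespace Pool.Agent.Helper18.NF

open Pool.Agent.Helper14.BSC Polynomial

/-! ## D. Multiplication by `n` on `x`-coordinates -/

/-- ADX: the sum of the `x`-coordinates of `P + Q` and `P - Q`. -/
def ST_ADX : Prop :=
  ∀ (k F : Type) [Field k] [Field F] [CharZero F] [Algebra k F] (a b : k)
    (hΔ : 4 * a ^ 3 + 27 * b ^ 2 ≠ 0) (x₁ y₁ x₂ y₂ : F) (h₁ : Eq3 a b x₁ y₁) (h₂ : Eq3 a b x₂ y₂),
    x₁ ≠ x₂ → ∃ (x y x' y' : F) (h : Eq3 a b x y) (h' : Eq3 a b x' y'),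
      EP.pt hΔ x₁ y₁ h₁ + EP.pt hΔ x₂ y₂ h₂ = EP.pt hΔ x y h ∧
      EP.pt hΔ x₁ y₁ h₁ - EP.pt hΔ x₂ y₂ h₂ = EP.pt hΔ x' y' h' ∧
      (x + x') * (x₁ - x₂) ^ 2 =
        2 * ((x₁ + x₂) * (x₁ * x₂ + algebraMap k F a) + 2 * algebraMap k F b)

/-- `A / B` gives the `x`-coordinate of `n P` for generic points `P` -/
def MulX {k : Type} [Field k] (a b : k) (n : ℕ) (A B : k[X]) : Prop :=
  ∀ (hΔ : 4 * a ^ 3 + 27 * b ^ 2 ≠ 0) (F : Type) [Field F] [CharZero F] [Algebra k F] (x y : F)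
    (h : Eq3 a b x y), Transcendental k x → ∃ (x' y' : F) (h' : Eq3 a b x' y'),
      n • EP.pt hΔ x y h = EP.pt hΔ x' y' h' ∧ x' * aeval x B = aeval x A

/-- DLR: existence of `A / B`, with the behaviour at infinity. -/
def ST_DLR : Prop :=
  ∀ (k : Type) [Field k] [CharZero k] (a b : k), 4 * a ^ 3 + 27 * b ^ 2 ≠ 0 → ∀ n : ℕ, 1 ≤ n →
    ∃ A B : k[X], IsCoprime A B ∧ A.natDegree = B.natDegree + 1 ∧
      (n : k) ^ 2 * A.leadingCoeff = B.leadingCoeff ∧ MulX a b n A B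

/-- NLN: `A / B` is not a polynomial. -/
def ST_NLN : Prop :=
  ∀ (k : Type) [Field k] [CharZero k] (a b : k), 4 * a ^ 3 + 27 * b ^ 2 ≠ 0 → ∀ n : ℕ, 2 ≤ n →
    ∀ A B : k[X], IsCoprime A B → A.natDegree = B.natDegree + 1 →
      (n : k) ^ 2 * A.leadingCoeff = B.leadingCoeff → MulX a b n A B → 1 ≤ B.natDegree

/-- DVP: division of generic points. -/
def ST_DVP : Prop :=
  ∀ (k Ω : Type) [Field k] [Field Ω] [Algebra k Ω] [CharZero k] [CharZero Ω] [IsAlgClosed Ω]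
    (a b : k) (hΔ : 4 * a ^ 3 + 27 * b ^ 2 ≠ 0) (n : ℕ), 1 ≤ n → ∀ (x y : Ω) (h : Eq3 a b x y),
    Transcendental k x → ∃ (x' y' : Ω) (h' : Eq3 a b x' y'), n • EP.pt hΔ x' y' h' = EP.pt hΔ x y h

/-- TRN: multiples of generic points are generic. -/
def ST_TRN : Prop :=
  ∀ (k F : Type) [Field k] [Field F] [Algebra k F] [CharZero k] [CharZero F] (a b : k)
    (hΔ : 4 * a ^ 3 + 27 * b ^ 2 ≠ 0) (n : ℕ), 1 ≤ n → ∀ (x y : F) (h : Eq3 a b x y),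
    Transcendental k x → ∃ (x' y' : F) (h' : Eq3 a b x' y'),
      n • EP.pt hΔ x y h = EP.pt hΔ x' y' h' ∧ Transcendental k x'

/-- ALP: points with algebraic `x`-coordinate come from the algebraic closure of `k`. -/
def ST_ALP : Prop :=
  ∀ (k Ω : Type) [Field k] [Field Ω] [Algebra k Ω] [CharZero k] [CharZero Ω] [CharZero (Acl k Ω)]
    (a b : k) (hΔ : 4 * a ^ 3 + 27 * b ^ 2 ≠ 0) (x y : Ω) (h : Eq3 a b x y), IsAlgebraic k x →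
    ∃ P : EP a b (Acl k Ω), EP.map (Acl k Ω).val P = EP.pt hΔ x y h

/-! ## E. Selmer groups -/

/-- `ξ` is a continuous cocycle of `Gal(kb / k)` with values in `E[m]`, `E : y² = x³ + a x + b`, which
becomes trivial in `H¹(·, E)` over the completions of `k` at all nonarchimedean places: for every
embedding `ι` of `kb` into `ℂ_ℓ` there is a point `U` of `E` over `ℂ_ℓ` with `τ U - U = ι (ξ g)` for all
isometric automorphisms `τ` of `ℂ_ℓ` extending an element `g` of the Galois group. -/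
structure IsSelmer {k kb : Type} [Field k] [Field kb] [Algebra k kb] (a b : k) (m : ℕ)
    (ξ : (kb ≃ₐ[k] kb) → EP a b kb) : Prop where
  tors : ∀ g, m • ξ g = 0
  coc : ∀ g h, ξ (g * h) = ξ g + EP.map (g : kb →ₐ[k] kb) (ξ h)
  cont : ∃ S : Finset kb, ∀ g : kb ≃ₐ[k] kb, (∀ c ∈ S, g c = c) → ξ g = 0
  loc : ∀ (l : ℕ) [Fact l.Prime] [Algebra k ℂ_[l]] (ι : kb →ₐ[k] ℂ_[l]), ∃ U : EP a b ℂ_[l],
    ∀ (g : kb ≃ₐ[k] kb) (τ : ℂ_[l] ≃ₐ[k] ℂ_[l]), (∀ z, ‖τ z‖ = ‖z‖) → (∀ c, τ (ι c) = ι (g c)) →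
      EP.map (τ : ℂ_[l] →ₐ[k] ℂ_[l]) U = U + EP.map ι (ξ g)

/-- the groups `Sel_{p^N}(E / k)`, `N ≥ 0`, have bounded exponent -/
def BddSelmer {k : Type} [Field k] (kb : Type) [Field kb] [Algebra k kb] (a b : k) (p : ℕ) : Prop :=
  ∃ e : ℕ, 0 < e ∧ ∀ (N : ℕ) (ξ : (kb ≃ₐ[k] kb) → EP a b kb), IsSelmer a b (p ^ N) ξ →
    ∃ t : EP a b kb, p ^ N • t = 0 ∧ ∀ g : kb ≃ₐ[k] kb, e • ξ g = EP.map (g : kb →ₐ[k] kb) t - t

/-- TRF: independence of the algebraic closure. -/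
def ST_TRF : Prop :=
  ∀ (k kb kb' : Type) [Field k] [Field kb] [Field kb'] [Algebra k kb] [Algebra k kb']
    (_ : kb ≃ₐ[k] kb') (a b : k) (p : ℕ), BddSelmer kb a b p → BddSelmer kb' a b p

/-- KCC: the Kummer cocycle of a nonconstant point over the fixed field. -/
def ST_KCC : Prop :=
  ∀ (k Ω : Type) [Field k] [Field Ω] [Algebra k Ω] [CharZero k] [CharZero Ω] [IsAlgClosed Ω]
    (D : Sec k Ω) (a b : k) (hΔ : 4 * a ^ 3 + 27 * b ^ 2 ≠ 0) (x y : Ω) (h : Eq3 a b x y),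
    Transcendental k x → x ∈ LL D → y ∈ LL D → ∀ m : ℕ, 1 ≤ m →
    ∃ (Q : EP a b Ω) (ξ : GG k Ω → EP a b (Acl k Ω)), m • Q = EP.pt hΔ x y h ∧
      (∀ g, EP.map (D.s g : Ω →ₐ[k] Ω) Q = Q + EP.map (Acl k Ω).val (ξ g)) ∧
      (∀ g, m • ξ g = 0) ∧
      (∀ g g', ξ (g * g') = ξ g + EP.map (g : Acl k Ω →ₐ[k] Acl k Ω) (ξ g')) ∧
      ∃ S : Finset (Acl k Ω), ∀ g : GG k Ω, (∀ c ∈ S, g c = c) → ξ g = 0

/-- GST: finite sets of algebraic elements lie in finite Galois-stable sets. -/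
def ST_GST : Prop :=
  ∀ (k Ω : Type) [Field k] [Field Ω] [Algebra k Ω] (S₀ : Finset (Acl k Ω)),
    ∃ S : Finset (Acl k Ω), S₀ ⊆ S ∧ ∀ g : GG k Ω, ∀ a ∈ S, g a ∈ S

/-- NFI: embeddings of number fields into `ℂ_ℓ`. -/
def ST_NFI : Prop :=
  ∀ (k Ω : Type) [Field k] [NumberField k] [Field Ω] [Algebra k Ω] [IsAlgClosed Ω]
    (S : Finset (Acl k Ω)) (l : ℕ) [Fact l.Prime] (ι : Acl k Ω →+* ℂ_[l]),
    ∃ E : IntermediateField ℚ_[l] ℂ_[l], FiniteDimensional ℚ_[l] E ∧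
      ∀ x ∈ FF (S : Set (Acl k Ω)), ι x ∈ E

/-- EQG: equivariance of the place over a Galois extension `k' = k(S)`. -/
def ST_EQG : Prop :=
  ∀ (k Ω : Type) [Field k] [Field Ω] [Algebra k Ω] [CharZero k] [IsAlgClosed Ω] (D : Sec k Ω)
    (S : Set (Acl k Ω)), (∀ g : GG k Ω, ∀ a ∈ S, g a ∈ S) → ∀ k' : IntermediateField k Ω,
    k' = IntermediateField.adjoin k ((fun a : Acl k Ω => (a : Ω)) '' S) →
    ∀ D' : Sec k' Ω, (∀ x : Ω, x ∈ LL D' ↔ x ∈ NN D S) →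
    ∀ (l : ℕ) [Fact l.Prime] (ι : Acl k Ω →+* ℂ_[l]) (E₀ : IntermediateField ℚ_[l] ℂ_[l]),
    FiniteDimensional ℚ_[l] E₀ → (∀ x ∈ FF S, ι x ∈ E₀) → ∀ σ' : k' →+* ℂ_[l],
    (∀ (c : Acl k Ω) (h : (c : Ω) ∈ k'), σ' ⟨c, h⟩ = ι c) → ∀ (P' : Place D' l σ') (g : GG k Ω)
    (τ : ℂ_[l] ≃+* ℂ_[l]), (∀ z, ‖τ z‖ = ‖z‖) → (∀ c, τ (ι c) = ι (g c)) →
    ∀ x x' : LL D', (x' : Ω) = D.s g (x : Ω) → (x ∈ P'.C ↔ x' ∈ P'.C) ∧
      ∀ (hx : x ∈ P'.C) (hx' : x' ∈ P'.C), P'.φ ⟨x', hx'⟩ = τ (P'.φ ⟨x, hx⟩)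

/-- RED: reduction of points at a place trivial on the constants `C₀`; it commutes with translation by
constant points. -/
def ST_RED : Prop :=
  ∀ (k M F C₀ : Type) [Field k] [Field M] [Field F] [Field C₀] [Algebra k M] [Algebra k F]
    [Algebra k C₀] [CharZero M] [CharZero F] (C : ValuationSubring M) (φ : C →+* F)
    (i : C₀ →ₐ[k] M) (j : C₀ →ₐ[k] F), (∀ x : C, φ x = 0 ↔ ((x : M) = 0 ∨ (x : M)⁻¹ ∉ C)) →
    (∀ c, ∃ h : i c ∈ C, φ ⟨i c, h⟩ = j c) → ∀ (a b : k) (hΔ : 4 * a ^ 3 + 27 * b ^ 2 ≠ 0),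
    ∃ red : EP a b M → EP a b F, red 0 = 0 ∧
      (∀ (x y : M) (h : Eq3 a b x y), x ∉ C → red (EP.pt hΔ x y h) = 0) ∧
      (∀ (x y : M) (h : Eq3 a b x y) (hx : x ∈ C), ∃ (hy : y ∈ C)
        (h' : Eq3 a b (φ ⟨x, hx⟩) (φ ⟨y, hy⟩)), red (EP.pt hΔ x y h) = EP.pt hΔ _ _ h') ∧
      ∀ (Q : EP a b M) (T : EP a b C₀), red (Q + EP.map i T) = red Q + EP.map j T

/-- LCT: the Kummer cocycle is everywhere locally trivial. -/
def ST_LCT : Prop :=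
  ∀ (k Ω : Type) [Field k] [NumberField k] [Field Ω] [Algebra k Ω] [CharZero Ω] [IsAlgClosed Ω]
    (D : Sec k Ω) (a b : k), 4 * a ^ 3 + 27 * b ^ 2 ≠ 0 →
    ∀ (Q : EP a b Ω) (ξ : GG k Ω → EP a b (Acl k Ω)),
    (∀ g, EP.map (D.s g : Ω →ₐ[k] Ω) Q = Q + EP.map (Acl k Ω).val (ξ g)) →
    ∀ (l : ℕ) [Fact l.Prime] [Algebra k ℂ_[l]] (ι : Acl k Ω →ₐ[k] ℂ_[l]), ∃ U : EP a b ℂ_[l],
      ∀ (g : GG k Ω) (τ : ℂ_[l] ≃ₐ[k] ℂ_[l]), (∀ z, ‖τ z‖ = ‖z‖) → (∀ c, τ (ι c) = ι (g c)) →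
        EP.map (τ : ℂ_[l] →ₐ[k] ℂ_[l]) U = U + EP.map ι (ξ g)

/-- DVB: bounded Selmer groups make a multiple of every nonconstant point infinitely `p`-divisible. -/
def ST_DVB : Prop :=
  ∀ (k Ω : Type) [Field k] [NumberField k] [Field Ω] [Algebra k Ω] [CharZero Ω] [IsAlgClosed Ω]
    (D : Sec k Ω) [CharZero (LL D)] (a b : k) (hΔ : 4 * a ^ 3 + 27 * b ^ 2 ≠ 0) (p : ℕ), 1 ≤ p →
    BddSelmer (Acl k Ω) a b p → ∀ (x y : LL D) (h : Eq3 a b x y), NC D x →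
    ∃ e : ℕ, 0 < e ∧ ∀ N : ℕ, ∃ P : EP a b (LL D), p ^ N • P = e • EP.pt hΔ x y h

/-- ORB: infinitely divisible points give backward orbits. -/
def ST_ORB : Prop :=
  ∀ (k Ω : Type) [Field k] [Field Ω] [Algebra k Ω] [CharZero k] [IsAlgClosed Ω] (D : Sec k Ω)
    [CharZero (LL D)] (a b : k) (hΔ : 4 * a ^ 3 + 27 * b ^ 2 ≠ 0) (p : ℕ), 2 ≤ p →
    ∀ (x y : LL D) (h : Eq3 a b x y), NC D x → ∀ e : ℕ, 0 < e →
    (∀ N : ℕ, ∃ P : EP a b (LL D), p ^ N • P = e • EP.pt hΔ x y h) →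
    ∃ A B : k[X], Dyn A B ∧ ∃ f : LL D, NC D f ∧ Back D A B f

end Pool.Agent.Helper18.NF
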