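import Pool.Agent.Helper22.TW.Stmts
import Pool.Agent.Helper51.BSC.FIN

/-!
# Birational sections over number fields and rational dynamics: exact statements, part 1

`k` a number field, `D` a section, `M = LL D` its fixed field, `δ = A/B` a rational function over `k`
with `deg A = deg B + 1 ≥ 2`.  Theorem C: if some `f ∈ M \ k` has arbitrarily long backward `δ`-orbits in
`M` then `D` is geometric.  Proofs of all modules: /team-store/h18_nf_blueprint.md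
-/

set_option autoImplicit false

namespace Pool.Agent.Helper18.NF

open Pool.Agent.Helper14.BSC Polynomial

/-! ## Definitions -/

/-- the rational map `A / B` -/
noncomputable def dl {k M : Type} [Field k] [Field M] [Algebra k M] (A B : k[X]) (x : M) : M :=
  aeval x A / aeval x B

/-- `δ = A / B` in lowest terms, `δ(∞) = ∞` unramified, degree at least two -/
structure Dyn {k : Type} [Field k] (A B : k[X]) : Prop where
  cop : IsCoprime A B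
  deg : A.natDegree = B.natDegree + 1
  pos : 1 ≤ B.natDegree

section

variable {k Ω : Type} [Field k] [Field Ω] [Algebra k Ω]

/-- nonconstant elements of the fixed field -/
def NC (D : Sec k Ω) (f : LL D) : Prop := ∀ c : k, f ≠ algebraMap k (LL D) c

/-- arbitrarily long backward orbits in the fixed field -/
def Back (D : Sec k Ω) (A B : k[X]) (f : LL D) : Prop := ∀ N : ℕ, ∃ g : LL D, (dl A B)^[N] g = f

/-- the element `B(δ^j f) / B(f)` -/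
noncomputable def Gm (D : Sec k Ω) (A B : k[X]) (f : LL D) (j : ℕ) : LL D :=
  aeval ((dl A B)^[j] f) B / aeval f B

/-- the value of `x` at `P`, if finite, is a root of `G` -/
def Rt {D : Sec k Ω} {p : ℕ} [Fact p.Prime] {σ : k →+* ℂ_[p]} (P : Place D p σ) (x : LL D)
    (G : k[X]) : Prop :=
  ∀ z, fin_Val P x z → (G.map σ).eval z = 0

end

/-- good reduction of `δ = A / B` at the embedding `σ` -/
def Good {k : Type} [Field k] {p : ℕ} [Fact p.Prime] (σ : k →+* ℂ_[p]) (A B : k[X]) : Prop :=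
  (∀ i, ‖σ (A.coeff i)‖ ≤ 1) ∧ (∀ i, ‖σ (B.coeff i)‖ ≤ 1) ∧ ‖σ A.leadingCoeff‖ = 1 ∧
    ‖σ B.leadingCoeff‖ = 1 ∧ ∃ U V : k[X], U * A + V * B = 1 ∧ (∀ i, ‖σ (U.coeff i)‖ ≤ 1) ∧
      ∀ i, ‖σ (V.coeff i)‖ ≤ 1

/-! ## A. Elementary facts -/

/-- DLB: nonconstant elements are transcendental, iterates of nonconstant elements are nonconstant. -/
def ST_DLB : Prop :=
  ∀ (k Ω : Type) [Field k] [Field Ω] [Algebra k Ω] [CharZero k] [IsAlgClosed Ω] (D : Sec k Ω),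
    (∀ f : LL D, NC D f → ∀ G : k[X], G ≠ 0 → aeval f G ≠ 0) ∧
    ∀ A B : k[X], Dyn A B →
      (∀ f : LL D, NC D f → ∀ i : ℕ, NC D ((dl A B)^[i] f)) ∧
      (∀ (f g : LL D) (N : ℕ), NC D f → (dl A B)^[N] g = f → NC D g) ∧
      (∀ f : LL D, Back D A B f → ∀ i : ℕ, Back D A B ((dl A B)^[i] f))

/-- PLV: `δ` and places. -/
def ST_PLV : Prop :=
  ∀ (k Ω : Type) [Field k] [Field Ω] [Algebra k Ω] [CharZero k] [IsAlgClosed Ω] (D : Sec k Ω)
    (A B : k[X]), Dyn A B → ∀ (p : ℕ) [Fact p.Prime] (σ : k →+* ℂ_[p]) (P : Place D p σ) (x : LL D),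
    NC D x →
    (∀ (G : k[X]) (z : ℂ_[p]), fin_Val P x z → fin_Val P (aeval x G) ((G.map σ).eval z)) ∧
    (∀ z, fin_Val P x z → (B.map σ).eval z ≠ 0 →
      fin_Val P (dl A B x) ((A.map σ).eval z / (B.map σ).eval z)) ∧
    (∀ z, fin_Val P x z → (B.map σ).eval z = 0 → dl A B x ∉ P.C) ∧
    (x ∉ P.C → dl A B x ∉ P.C ∧ fin_Val P (aeval (dl A B x) B / aeval x B)
      (σ (A.leadingCoeff / B.leadingCoeff) ^ B.natDegree))

/-- GIN: integrality at good embeddings. -/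
def ST_GIN : Prop :=
  ∀ (k : Type) [Field k] (A B : k[X]), Dyn A B → ∀ (p : ℕ) [Fact p.Prime] (σ : k →+* ℂ_[p]),
    Good σ A B →
    (∀ z : ℂ_[p], ‖z‖ ≤ 1 → ‖(A.map σ).eval z‖ ≤ 1 ∧ ‖(B.map σ).eval z‖ ≤ 1 ∧
      (‖(B.map σ).eval z‖ < 1 → ‖(A.map σ).eval z‖ = 1)) ∧
    (∀ z : ℂ_[p], 1 < ‖z‖ → ‖(A.map σ).eval z‖ = ‖z‖ ^ A.natDegree ∧
      ‖(B.map σ).eval z‖ = ‖z‖ ^ B.natDegree) ∧
    ∀ z z' : ℂ_[p], ‖z‖ ≤ 1 → ‖z'‖ ≤ 1 → ‖z - z'‖ < 1 →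
      ‖(A.map σ).eval z - (A.map σ).eval z'‖ < 1 ∧ ‖(B.map σ).eval z - (B.map σ).eval z'‖ < 1

/-- ALM: good reduction at almost all primes. -/
def ST_ALM : Prop :=
  ∀ (k : Type) [Field k] [NumberField k] (A B : k[X]), Dyn A B → ∃ S : Finset ℕ,
    ∀ (p : ℕ) [Fact p.Prime], p ∉ S → ∀ σ : k →+* ℂ_[p], Good σ A B

/-- RSF: the residue field of a place is finite. -/
def ST_RSF : Prop :=
  ∀ (k Ω : Type) [Field k] [Field Ω] [Algebra k Ω] [CharZero k] [IsAlgClosed Ω] (D : Sec k Ω)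
    (p : ℕ) [Fact p.Prime] (σ : k →+* ℂ_[p]) (P : Place D p σ) (g : ℕ → LL D),
    (∀ N, ∃ z, fin_Val P (g N) z ∧ ‖z‖ ≤ 1) →
    ∃ N N' : ℕ, N < N' ∧ ∃ z z', fin_Val P (g N) z ∧ fin_Val P (g N') z' ∧ ‖z - z'‖ < 1

/-! ## B. The classes of `B(δ^j f) / B(f)` -/

/-- GOD: at good places these elements are units. -/
def ST_GOD : Prop :=
  ∀ (k Ω : Type) [Field k] [Field Ω] [Algebra k Ω] [CharZero k] [IsAlgClosed Ω] (D : Sec k Ω)
    (A B : k[X]), Dyn A B → ∀ (p : ℕ) [Fact p.Prime] (σ : k →+* ℂ_[p]), Good σ A B →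
    ∀ (P : Place D p σ) (f : LL D), NC D f → Back D A B f → ∀ j : ℕ,
      ∃ v, fin_Val P (Gm D A B f j) v ∧ ‖v‖ = 1

/-- NRQ: an element with finite nonzero values, units at almost all primes, has rational norm class. -/
def ST_NRQ : Prop :=
  ∀ (k Ω : Type) [Field k] [NumberField k] [Field Ω] [Algebra k Ω] [IsAlgClosed Ω] (D : Sec k Ω)
    (x : LL D), x ≠ 0 →
    (∀ (p : ℕ) [Fact p.Prime], ∃ (T : TS k ℚ p) (P : ∀ i, Place D p (T.σ i)),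
      ∀ i, ∃ v, fin_Val (P i) x v ∧ v ≠ 0) →
    (∃ S : Finset ℕ, ∀ (p : ℕ) [Fact p.Prime], p ∉ S → ∃ (T : TS k ℚ p)
      (P : ∀ i, Place D p (T.σ i)), ∀ i, ∃ v, fin_Val (P i) x v ∧ ‖v‖ = 1) →
    NR D ℚ x

/-- SYS: systems of places over all embeddings. -/
def ST_SYS : Prop :=
  ∀ (k Ω : Type) [Field k] [NumberField k] [Field Ω] [Algebra k Ω] [IsAlgClosed Ω] (D : Sec k Ω)
    (p : ℕ) [Fact p.Prime],
    (∃ T : TS k ℚ p, ∀ i, Nonempty (Place D p (T.σ i))) ∧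
    ∀ (σ : k →+* ℂ_[p]) (P : Place D p σ), ∃ (T : TS k ℚ p) (Q : ∀ i, Place D p (T.σ i))
      (i0 : Fin T.n), T.σ i0 = σ ∧ ∀ x z, fin_Val (Q i0) x z ↔ fin_Val P x z

/-- BAD: behaviour at finitely many places. -/
def ST_BAD : Prop :=
  ∀ (k Ω : Type) [Field k] [Field Ω] [Algebra k Ω] [CharZero k] [IsAlgClosed Ω] (D : Sec k Ω)
    (A B : k[X]), Dyn A B → ∀ f : LL D, NC D f → ∀ (p : ℕ) [Fact p.Prime] (σ : k →+* ℂ_[p])
    (P : Place D p σ), ∃ m : ℕ, ∀ i : ℕ, m ≤ i → ∀ j : ℕ,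
      ∃ v, fin_Val P (Gm D A B ((dl A B)^[i] f) j) v ∧ v ≠ 0

/-- NRG: the classes of `B(δ^j F) / B(F)`, `F = δ^i₀ f`, have rational norm. -/
def ST_NRG : Prop :=
  ∀ (k Ω : Type) [Field k] [NumberField k] [Field Ω] [Algebra k Ω] [IsAlgClosed Ω] (D : Sec k Ω)
    (A B : k[X]), Dyn A B → ∀ f : LL D, NC D f → Back D A B f →
    ∃ i₀ : ℕ, ∀ j : ℕ, NR D ℚ (Gm D A B ((dl A B)^[i₀] f) j)

/-! ## C. Algebraicity of the values -/

/-- VFN: the valuation argument. -/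
def ST_VFN : Prop :=
  ∀ (K L : Type) [Field K] [Field L] [Algebra K L] [IsAlgClosed K] (n : ℕ) (ι : Type) [Fintype ι],
    Fintype.card ι ≤ n → ∀ A B : ι → K[X], (∀ i, Dyn (A i) (B i)) → ∀ κ : ℕ → K, (∀ j, κ j ≠ 0) →
    ∀ z : ι → ℕ → L,
    (∀ i, ∀ j, j ≤ n → aeval (z i j) (B i) ≠ 0 ∧
      z i (j + 1) = aeval (z i j) (A i) / aeval (z i j) (B i)) →
    (∀ j, 1 ≤ j → j ≤ n →
      ∏ i, aeval (z i j) (B i) = algebraMap K L (κ j) * ∏ i, aeval (z i 0) (B i)) →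
    ∀ i, z i 0 ∈ (algebraMap K L).range

/-- CPT: if a coordinate of every solution of a system is algebraic then it is a root of one fixed
polynomial. -/
def ST_CPT : Prop :=
  ∀ (K : Type) [Field K] (τ : Type) (S : Set (MvPolynomial τ K)) (t : τ),
    (∀ (L : Type) [Field L] [Algebra K L] (y : τ → L), (∀ q ∈ S, MvPolynomial.aeval y q = 0) →
      IsAlgebraic K (y t)) →
    ∃ F : K[X], F ≠ 0 ∧ ∀ (L : Type) [Field L] [Algebra K L] (y : τ → L),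
      (∀ q ∈ S, MvPolynomial.aeval y q = 0) → aeval (y t) F = 0

/-- UNK: the uniform version of VFN. -/
def ST_UNK : Prop :=
  ∀ (K : Type) [Field K] [IsAlgClosed K] (n : ℕ) (ι : Type) [Fintype ι],
    Fintype.card ι ≤ n → ∀ A B : ι → K[X], (∀ i, Dyn (A i) (B i)) → ∀ κ : ℕ → K, (∀ j, κ j ≠ 0) →
    ∃ F : K[X], F ≠ 0 ∧ ∀ (L : Type) [Field L] [Algebra K L] (z : ι → ℕ → L),
    (∀ i, ∀ j, j ≤ n → aeval (z i j) (B i) ≠ 0 ∧
      z i (j + 1) = aeval (z i j) (A i) / aeval (z i j) (B i)) →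
    (∀ j, 1 ≤ j → j ≤ n →
      ∏ i, aeval (z i j) (B i) = algebraMap K L (κ j) * ∏ i, aeval (z i 0) (B i)) →
    ∀ i, aeval (z i 0) F = 0

/-- DSP: descent of polynomials to `ℚ`. -/
def ST_DSP : Prop :=
  ∀ F : (AlgebraicClosure ℚ)[X], F ≠ 0 → ∃ G : ℚ[X], G ≠ 0 ∧
    F ∣ G.map (algebraMap ℚ (AlgebraicClosure ℚ))

/-- TSQ: systems of all embeddings come from embeddings into `AlgebraicClosure ℚ`. -/
def ST_TSQ : Prop :=
  ∀ (k : Type) [Field k] [NumberField k] (p : ℕ) [Fact p.Prime] (T : TS k ℚ p),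
    ∃ (j : AlgebraicClosure ℚ →+* ℂ_[p]) (τ : Fin (Module.finrank ℚ k) → (k →+* AlgebraicClosure ℚ))
      (e : Fin T.n ≃ Fin (Module.finrank ℚ k)), ∀ i, T.σ i = j.comp (τ (e i))

/-- UNV: one polynomial over `k` for all primes. -/
def ST_UNV : Prop :=
  ∀ (k : Type) [Field k] [NumberField k] (A B : k[X]), Dyn A B → ∀ ρ : ℕ → ℚ, (∀ j, ρ j ≠ 0) →
    ∃ G : k[X], G ≠ 0 ∧ ∀ (p : ℕ) [Fact p.Prime] (T : TS k ℚ p) (I : Finset (Fin T.n))
      (z : Fin T.n → ℕ → ℂ_[p]),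
    (∀ i ∈ I, ∀ j, j ≤ T.n → (B.map (T.σ i)).eval (z i j) ≠ 0 ∧
      z i (j + 1) = (A.map (T.σ i)).eval (z i j) / (B.map (T.σ i)).eval (z i j)) →
    (∀ j, 1 ≤ j → j ≤ T.n → (∏ i ∈ I, (B.map (T.σ i)).eval (z i j)) *
        ∏ i ∈ Iᶜ, T.σ i (A.leadingCoeff / B.leadingCoeff) ^ (j * B.natDegree) =
      T.j (ρ j) * ∏ i ∈ I, (B.map (T.σ i)).eval (z i 0)) →
    ∀ i ∈ I, (G.map (T.σ i)).eval (z i 0) = 0

/-- WND: a window without hitting times. -/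
def ST_WND : Prop :=
  ∀ (n : ℕ) (out : Fin n → ℕ → Prop), (∀ i t, out i t → out i (t + 1)) →
    ∃ a : ℕ, a ≤ n ∧ ∀ i, out i (a * (n + 1)) ∨ ∀ j, j ≤ n + 1 → ¬ out i (a * (n + 1) + j)

/-- PUL: pulling back polynomials under iterates of `δ`. -/
def ST_PUL : Prop :=
  ∀ (k : Type) [Field k] [CharZero k] (A B : k[X]), Dyn A B → ∀ G : k[X], G ≠ 0 → ∀ i : ℕ,
    ∃ G' : k[X], G' ≠ 0 ∧ ∀ (Ω : Type) [Field Ω] [Algebra k Ω] [IsAlgClosed Ω] (D : Sec k Ω)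
      (f : LL D), NC D f → ∀ (p : ℕ) [Fact p.Prime] (σ : k →+* ℂ_[p]) (P : Place D p σ),
      Rt P ((dl A B)^[i] f) G → Rt P f G'

/-- RTW: the values in one window. -/
def ST_RTW : Prop :=
  ∀ (k Ω : Type) [Field k] [NumberField k] [Field Ω] [Algebra k Ω] [IsAlgClosed Ω] (D : Sec k Ω)
    (A B : k[X]), Dyn A B → ∀ F : LL D, NC D F → (∀ j : ℕ, NR D ℚ (Gm D A B F j)) →
    ∃ G : k[X], G ≠ 0 ∧ ∀ (p : ℕ) [Fact p.Prime] (T : TS k ℚ p) (Q : ∀ i, Place D p (T.σ i)),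
      (∀ i, F ∉ (Q i).C ∨ ∀ j, j ≤ T.n + 1 → (dl A B)^[j] F ∈ (Q i).C) → ∀ i, Rt (Q i) F G

/-- RTF: the finite values of `f` at all places are roots of one polynomial. -/
def ST_RTF : Prop :=
  ∀ (k Ω : Type) [Field k] [NumberField k] [Field Ω] [Algebra k Ω] [IsAlgClosed Ω] (D : Sec k Ω)
    (A B : k[X]), Dyn A B → ∀ F : LL D, NC D F → (∀ j : ℕ, NR D ℚ (Gm D A B F j)) →
    ∃ G : k[X], G ≠ 0 ∧ RootFin D F G

/-- DYC: Theorem C up to the final step. -/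
def ST_DYC : Prop :=
  ∀ (k Ω : Type) [Field k] [NumberField k] [Field Ω] [Algebra k Ω] [IsAlgClosed Ω] (D : Sec k Ω)
    (A B : k[X]), Dyn A B → ∀ f : LL D, NC D f → Back D A B f → ∃ G : k[X], G ≠ 0 ∧ RootFin D f G

/-- PWR: a nonconstant element which is a constant times a `p ^ N`-th power for all `N` gives infinite
backward orbits. -/
def ST_PWR : Prop :=
  ∀ (k Ω : Type) [Field k] [Field Ω] [Algebra k Ω] [CharZero k] [IsAlgClosed Ω] (D : Sec k Ω)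
    (p : ℕ), 2 ≤ p → ∀ (f : LL D) (a : k), NC D f → a ≠ 0 →
    (∀ N : ℕ, ∃ g : LL D, f = algebraMap k (LL D) a * g ^ p ^ N) →
    ∃ A B : k[X], Dyn A B ∧ ∃ x : LL D, NC D x ∧ Back D A B x

/-- CVP: for geometric sections some nonconstant element of `K` has all roots in the fixed field. -/
def ST_CVP : Prop :=
  ∀ (k K Ω : Type) [Field k] [Field K] [Field Ω] [Algebra k K] [Algebra K Ω] [Algebra k Ω]
    [IsScalarTower k K Ω] [CharZero k] [IsAlgClosed Ω] [Algebra.IsAlgebraic K Ω] (D : Sec k Ω)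
    (O : ValuationSubring K),
    (∀ (g : GG k Ω) (x : K), D.s g (algebraMap K Ω x) = algebraMap K Ω x) → GeoV k K Ω D O →
    ∃ f : K, (∀ c : k, f ≠ algebraMap k K c) ∧ ∀ n : ℕ, 0 < n → ∃ g : LL D,
      algebraMap K Ω f = (g : Ω) ^ n

end Pool.Agent.Helper18.NF
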