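import Pool.Agent.Helper18.NF.Top
import Pool.Agent.Helper14.BSC.All
import Pool.Agent.Helper22.TW.ONEF
import Pool.Agent.Helper48.TW.UNQ
import Pool.Agent.Helper48.TW.PL
import Pool.Agent.Helper53.FFI.EQV
import Pool.Agent.Helper30.FFI.BCS
import Pool.Agent.Helper27.FFI.FFS
import Pool.Agent.Helper1.NF.NRG
import Pool.Agent.Helper1.NF.PWR
import Pool.Agent.Helper1.NF.UNK
import Pool.Agent.Helper18.NF.CVP
import Pool.Agent.Helper18.NF.SYS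
import Pool.Agent.Helper31.NF.RSF
import Pool.Agent.Helper31.NF.TRF
import Pool.Agent.Helper38.NF.LCT
import Pool.Agent.Helper41.NF.GOD
import Pool.Agent.Helper41.NF.NRQ
import Pool.Agent.Helper50.NF.ALP
import Pool.Agent.Helper50.NF.DVB
import Pool.Agent.Helper50.NF.GST
import Pool.Agent.Helper50.NF.KCC
import Pool.Agent.Helper50.NF.NFI
import Pool.Agent.Helper52.NF.UNV
import Pool.Agent.Helper64.NF.PLV
import Pool.Agent.Helper67.NF.ADX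
import Pool.Agent.Helper67.NF.DVP
import Pool.Agent.Helper67.NF.ORB
import Pool.Agent.Helper67.NF.TRN
import Pool.Agent.Helper7.NF.DYC
import Pool.Agent.Helper7.NF.TSQ
import Pool.Agent.Helper78.NF.DLR
import Pool.Agent.Helper79.NF.VFN
import Pool.Agent.Helper82.NF.BAD
import Pool.Agent.Helper82.NF.DLB
import Pool.Agent.Helper82.NF.PUL
import Pool.Agent.Helper82.NF.RTF
import Pool.Agent.Helper82.NF.RTW
import Pool.Agent.Helper84.NF.NLN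
import Pool.Agent.Helper86.NF.ALM
import Pool.Agent.Helper86.NF.CPT
import Pool.Agent.Helper86.NF.DSP
import Pool.Agent.Helper86.NF.GIN
import Pool.Agent.Helper86.NF.WND
import Pool.Agent.Helper89.NF.EQG
import Pool.Agent.Helper91.NF.RED

/-!
# Theorems A, B, C: everything together
-/

set_option autoImplicit false

namespace Pool.Agent.Helper18.NF

open Pool.Agent.Helper14.BSC Pool.Agent.Helper14.BSC.Gen Polynomial

theorem x_UNQ : Pool.Agent.Helper22.TW.ST_UNQ :=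
  Pool.Agent.Helper22.TW.st_UNQ Pool.Agent.Helper14.BSC.all_KUM Pool.Agent.Helper14.BSC.all_BOT
    Pool.Agent.Helper14.BSC.all_LIM

theorem x_PL : Pool.Agent.Helper22.TW.ST_PL :=
  Pool.Agent.Helper22.TW.st_PL x_UNQ Pool.Agent.Helper14.BSC.all_KUM
    Pool.Agent.Helper14.BSC.all_ROOT Pool.Agent.Helper14.BSC.all_BOT
    Pool.Agent.Helper14.BSC.all_EFIN Pool.Agent.Helper14.BSC.all_RK

theorem x_EQV : Pool.Agent.Helper22.FF.ST_EQV := Pool.Agent.Helper22.FF.st_EQV x_PL x_UNQ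

theorem x_ONEF : Pool.Agent.Helper22.TW.ST_ONEF :=
  Pool.Agent.Helper22.TW.st_ONEF Pool.Agent.Helper14.BSC.all_ZER Pool.Agent.Helper14.BSC.all_DEP
    Pool.Agent.Helper14.BSC.all_LZG Pool.Agent.Helper14.BSC.all_EMB Pool.Agent.Helper14.BSC.all_TSX
    Pool.Agent.Helper14.BSC.all_RK Pool.Agent.Helper14.BSC.all_ONE4
    Pool.Agent.Helper14.BSC.all_MOB1

theorem nf_DLB : ST_DLB := st_DLB Pool.Agent.Helper14.BSC.all_BOT
theorem nf_PLV : ST_PLV := st_PLV nf_DLB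
theorem nf_GIN : ST_GIN := st_GIN 
theorem nf_ALM : ST_ALM := st_ALM 
theorem nf_RSF : ST_RSF := st_RSF Pool.Agent.Helper14.BSC.all_EFIN
theorem nf_GOD : ST_GOD := st_GOD nf_DLB nf_PLV nf_GIN nf_RSF
theorem nf_NRQ : ST_NRQ := st_NRQ Pool.Agent.Helper14.BSC.all_KUM Pool.Agent.Helper14.BSC.all_ROOT Pool.Agent.Helper14.BSC.all_EFIN Pool.Agent.Helper14.BSC.all_BOT
theorem nf_SYS : ST_SYS := st_SYS Pool.Agent.Helper14.BSC.all_TSX Pool.Agent.Helper14.BSC.all_RK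
theorem nf_BAD : ST_BAD := st_BAD nf_DLB nf_PLV
theorem nf_NRG : ST_NRG := st_NRG nf_DLB nf_ALM nf_GOD nf_BAD nf_SYS nf_NRQ
theorem nf_VFN : ST_VFN := st_VFN 
theorem nf_CPT : ST_CPT := st_CPT 
theorem nf_UNK : ST_UNK := st_UNK nf_VFN nf_CPT
theorem nf_DSP : ST_DSP := st_DSP 
theorem nf_TSQ : ST_TSQ := st_TSQ 
theorem nf_UNV : ST_UNV := st_UNV nf_UNK nf_DSP nf_TSQ
theorem nf_WND : ST_WND := st_WND 
theorem nf_PUL : ST_PUL := st_PUL nf_DLB nf_PLV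
theorem nf_RTW : ST_RTW := st_RTW nf_DLB nf_PLV nf_UNV Pool.Agent.Helper14.BSC.all_N1
theorem nf_RTF : ST_RTF := st_RTF nf_DLB nf_PLV nf_PUL nf_WND nf_RTW nf_SYS
theorem nf_DYC : ST_DYC := st_DYC nf_DLB nf_NRG nf_RTF nf_PUL
theorem nf_PWR : ST_PWR := st_PWR nf_DLB
theorem nf_CVP : ST_CVP := st_CVP Pool.Agent.Helper14.BSC.all_HEN
theorem nf_ADX : ST_ADX := st_ADX 
theorem nf_DLR : ST_DLR := st_DLR nf_ADX
theorem nf_NLN : ST_NLN := st_NLN nf_ADX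
theorem nf_TRN : ST_TRN := st_TRN nf_DLR
theorem nf_DVP : ST_DVP := st_DVP nf_DLR
theorem nf_ALP : ST_ALP := st_ALP 
theorem nf_TRF : ST_TRF := st_TRF 
theorem nf_KCC : ST_KCC := st_KCC nf_DVP nf_TRN nf_ALP
theorem nf_GST : ST_GST := st_GST 
theorem nf_NFI : ST_NFI := st_NFI Pool.Agent.Helper22.FF.st_FFS
theorem nf_EQG : ST_EQG := st_EQG x_EQV
theorem nf_RED : ST_RED := st_RED 
theorem nf_LCT : ST_LCT := st_LCT nf_GST nf_NFI nf_EQG nf_RED Pool.Agent.Helper14.BSC.all_RK Pool.Agent.Helper22.FF.st_BCS Pool.Agent.Helper22.FF.st_FFS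
theorem nf_DVB : ST_DVB := st_DVB nf_KCC nf_LCT nf_DLB
theorem nf_ORB : ST_ORB := st_ORB nf_DLB nf_DLR nf_NLN nf_TRN

section

variable {k K kb Ω : Type} [Field k] [Field K] [Field kb] [Field Ω] [Algebra k K] [Algebra k kb]
  [Algebra kb Ω] [Algebra k Ω] [Algebra K Ω] [IsScalarTower k K Ω] [IsScalarTower k kb Ω]
  [Algebra.IsAlgebraic K Ω] [IsAlgClosure k kb]

theorem all_dyn [NumberField k] [IsAlgClosed Ω]
    (htr : ∃ t : K, Transcendental k t ∧ Algebra.IsAlgebraic (IntermediateField.adjoin k {t}) K)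
    (s : (kb ≃ₐ[k] kb) →* (Ω ≃ₐ[K] Ω)) (hs : IsSection s)
    (A B : k[X]) (hAB : Dyn A B) (f : Ω) (hf : ∀ g, s g f = f) (hfk : f ∉ (algebraMap k Ω).range)
    (hb : ∀ N : ℕ, ∃ g : Ω, (∀ σ, s σ g = g) ∧ (fun x : Ω => aeval x A / aeval x B)^[N] g = f) :
    IsGeometric s :=
  tp_dyn nf_DYC x_ONEF all_IFD all_UNI all_ALG htr s hs A B hAB f hf hfk hb

theorem all_pow [NumberField k] [IsAlgClosed Ω]
    (htr : ∃ t : K, Transcendental k t ∧ Algebra.IsAlgebraic (IntermediateField.adjoin k {t}) K)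
    (s : (kb ≃ₐ[k] kb) →* (Ω ≃ₐ[K] Ω)) (hs : IsSection s) (p : ℕ) (hp : 2 ≤ p)
    (f : Ω) (hf : ∀ g, s g f = f) (hfk : f ∉ (algebraMap k Ω).range) (a : k) (ha : a ≠ 0)
    (hb : ∀ N : ℕ, ∃ g : Ω, (∀ σ, s σ g = g) ∧ f = algebraMap k Ω a * g ^ p ^ N) :
    IsGeometric s :=
  tp_pow nf_DYC x_ONEF all_IFD all_UNI all_ALG nf_PWR htr s hs p hp f hf hfk a ha hb

theorem all_conv [CharZero k] [IsAlgClosed Ω]
    (s : (kb ≃ₐ[k] kb) →* (Ω ≃ₐ[K] Ω)) (hs : IsSection s) (hG : IsGeometric s) :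
    ∃ f : K, f ∉ (algebraMap k K).range ∧ ∀ n : ℕ, 0 < n → ∃ g : Ω, (∀ σ, s σ g = g) ∧
      algebraMap K Ω f = g ^ n :=
  tp_conv nf_CVP s hs hG

theorem all_back [CharZero k] [IsAlgClosed Ω]
    (s : (kb ≃ₐ[k] kb) →* (Ω ≃ₐ[K] Ω)) (hs : IsSection s) (p : ℕ) (hp : 2 ≤ p)
    (f : Ω) (hf : ∀ g, s g f = f) (hfk : f ∉ (algebraMap k Ω).range) (a : k) (ha : a ≠ 0)
    (hb : ∀ N : ℕ, ∃ g : Ω, (∀ σ, s σ g = g) ∧ f = algebraMap k Ω a * g ^ p ^ N) :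
    ∃ A B : k[X], Dyn A B ∧ ∃ x : Ω, (∀ g, s g x = x) ∧ x ∉ (algebraMap k Ω).range ∧
      ∀ N : ℕ, ∃ g : Ω, (∀ σ, s σ g = g) ∧ (fun x : Ω => aeval x A / aeval x B)^[N] g = x :=
  tp_back nf_PWR s hs p hp f hf hfk a ha hb

theorem all_ell [NumberField k] [IsAlgClosed Ω]
    (htr : ∃ t : K, Transcendental k t ∧ Algebra.IsAlgebraic (IntermediateField.adjoin k {t}) K)
    (s : (kb ≃ₐ[k] kb) →* (Ω ≃ₐ[K] Ω)) (hs : IsSection s) (a b : k)
    (hΔ : 4 * a ^ 3 + 27 * b ^ 2 ≠ 0) (p : ℕ) (hp : 2 ≤ p) (hB : BddSelmer kb a b p)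
    (x y : Ω) (hx : ∀ g, s g x = x) (hy : ∀ g, s g y = y)
    (hxy : y ^ 2 = x ^ 3 + algebraMap k Ω a * x + algebraMap k Ω b)
    (hxk : x ∉ (algebraMap k Ω).range) : IsGeometric s :=
  tp_ell nf_DYC x_ONEF all_IFD all_UNI all_ALG nf_TRF nf_DVB nf_ORB htr s hs a b hΔ p hp hB
    x y hx hy hxy hxk

end

end Pool.Agent.Helper18.NF
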