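import Pool.Agent.Helper18.NF.Top2

/-!
# Divisible points of elliptic curves over the fixed field of a section
-/

set_option autoImplicit false

namespace Pool.Agent.Helper18.NF

open Pool.Agent.Helper14.BSC Pool.Agent.Helper14.BSC.Gen Polynomial

section

variable {k K kb Ω : Type} [Field k] [Field K] [Field kb] [Field Ω] [Algebra k K] [Algebra k kb]
  [Algebra kb Ω] [Algebra k Ω] [Algebra K Ω] [IsScalarTower k K Ω] [IsScalarTower k kb Ω]
  [Algebra.IsAlgebraic K Ω] [IsAlgClosure k kb]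

theorem tr_lift [CharZero k] (s : (kb ≃ₐ[k] kb) →* (Ω ≃ₐ[K] Ω)) (hs : IsSection s) (a b : k)
    (hΔ : 4 * a ^ 3 + 27 * b ^ 2 ≠ 0) (T : EP a b Ω)
    (hT : ∀ g, EP.map ((s g : Ω →ₐ[K] Ω).restrictScalars k) T = T) :
    ∃ T' : EP a b (LL (topD s hs)), EP.map (LL (topD s hs)).val T' = T := by
  have : CharZero Ω := charZero_of_injective_algebraMap (algebraMap k Ω).injective
  have : CharZero (LL (topD s hs)) :=
    charZero_of_injective_algebraMap (algebraMap k (LL (topD s hs))).injective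
  rcases EP.cases hΔ T with h0 | ⟨x, y, h, h0⟩
  · exact ⟨0, by rw [h0, map_zero]⟩
  · subst h0
    have hxy : ∀ g, s g x = x ∧ s g y = y := by
      intro g
      have h1 := hT g
      rw [EP.map_pt] at h1
      exact EP.pt_inj hΔ h1
    have hxD : x ∈ LL (topD s hs) := (top_mem s hs x).2 fun g => (hxy g).1
    have hyD : y ∈ LL (topD s hs) := (top_mem s hs y).2 fun g => (hxy g).2
    have hE : Eq3 a b (⟨x, hxD⟩ : LL (topD s hs)) ⟨y, hyD⟩ := by
      unfold Eq3
      apply Subtype.ext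
      exact h
    exact ⟨EP.pt hΔ _ _ hE, by rw [EP.map_pt]; rfl⟩

theorem tr_const (a b : k) (c : k) (y : Ω)
    (hcy : y ^ 2 = algebraMap k Ω c ^ 3 + algebraMap k Ω a * algebraMap k Ω c + algebraMap k Ω b) :
    y ∈ (algebraMap kb Ω).range := by
  have : IsAlgClosed kb := IsAlgClosure.isAlgClosed k
  obtain ⟨z, hz⟩ := IsAlgClosed.exists_pow_nat_eq (algebraMap k kb (c ^ 3 + a * c + b)) (n := 2)
    (by norm_num)
  have h1 : y ^ 2 = algebraMap kb Ω z ^ 2 := by
    rw [← map_pow, hz, ← IsScalarTower.algebraMap_apply, hcy]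
    simp only [map_add, map_mul, map_pow]
  rcases sq_eq_sq_iff_eq_or_eq_neg.1 h1 with h2 | h2
  · exact ⟨z, h2.symm⟩
  · exact ⟨-z, by rw [map_neg, h2]⟩

/-- a nonconstant infinitely `p`-divisible point over the fixed field -/
theorem tr_div (hDYC : ST_DYC) (hONEF : Pool.Agent.Helper22.TW.ST_ONEF) (hIFD : ST_IFD)
    (hUNI : ST_UNI) (hALG : ST_ALG) (hORB : ST_ORB) [NumberField k] [IsAlgClosed Ω]
    (htr : ∃ t : K, Transcendental k t ∧ Algebra.IsAlgebraic (IntermediateField.adjoin k {t}) K)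
    (s : (kb ≃ₐ[k] kb) →* (Ω ≃ₐ[K] Ω)) (hs : IsSection s) (p : ℕ) (hp : 2 ≤ p) (a b : k)
    (hΔ : 4 * a ^ 3 + 27 * b ^ 2 ≠ 0) (R : EP a b Ω)
    (hR : ∀ R' : EP a b kb, EP.map (IsScalarTower.toAlgHom k kb Ω) R' ≠ R)
    (h : ∀ N : ℕ, ∃ T : EP a b Ω, (∀ g, EP.map ((s g : Ω →ₐ[K] Ω).restrictScalars k) T = T) ∧
      p ^ N • T = R) : IsGeometric s := by
  apply tp_main hDYC hONEF hIFD hUNI hALG htr s hs
  have : CharZero Ω := charZero_of_injective_algebraMap (algebraMap k Ω).injective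
  have : CharZero kb := charZero_of_injective_algebraMap (algebraMap k kb).injective
  have : CharZero (LL (topD s hs)) :=
    charZero_of_injective_algebraMap (algebraMap k (LL (topD s hs))).injective
  obtain ⟨T, hT, hT0⟩ := h 0
  rw [pow_zero, one_smul] at hT0
  subst hT0
  obtain ⟨T', hT'⟩ := tr_lift s hs a b hΔ T hT
  rcases EP.cases hΔ T' with h0 | ⟨x, y, hxy, h0⟩
  · exfalso
    apply hR 0
    rw [← hT', h0, map_zero, map_zero]
  · subst h0
    have hN : NC (topD s hs) x := by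
      intro c hc
      have hcx : (x : Ω) = algebraMap k Ω c := congrArg (fun z : LL (topD s hs) => (z : Ω)) hc
      have hE : (y : Ω) ^ 2 = (x : Ω) ^ 3 + algebraMap k Ω a * (x : Ω) + algebraMap k Ω b :=
        congrArg (fun z : LL (topD s hs) => (z : Ω)) hxy
      rw [hcx] at hE
      obtain ⟨z, hz⟩ := tr_const (kb := kb) a b c (y : Ω) hE
      have hE' : Eq3 a b (algebraMap k kb c) z := by
        unfold Eq3
        apply (algebraMap kb Ω).injective
        rw [map_pow, hz, hE]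
        simp only [map_add, map_mul, map_pow, ← IsScalarTower.algebraMap_apply]
      apply hR (EP.pt hΔ _ _ hE')
      rw [← hT', EP.map_pt, EP.map_pt]
      apply EP.pt_congr
      · show algebraMap kb Ω (algebraMap k kb c) = (x : Ω)
        rw [← IsScalarTower.algebraMap_apply, hcx]
      · exact hz
    apply hORB k Ω (topD s hs) a b hΔ p hp x y hxy hN 1 one_pos
    intro N
    obtain ⟨S, hS, hSN⟩ := h N
    obtain ⟨S', hS'⟩ := tr_lift s hs a b hΔ S hS
    refine ⟨S', ?_⟩
    apply EP.map_injective (LL (topD s hs)).val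
    rw [map_nsmul, hS', hSN, one_smul, hT']

/-- divisible points for geometric sections -/
theorem tr_geo (hHEN : ST_HEN) (hEDV : ST_EDV) [CharZero k] [IsAlgClosed Ω]
    (s : (kb ≃ₐ[k] kb) →* (Ω ≃ₐ[K] Ω)) (hs : IsSection s) (hG : IsGeometric s) (a b : k)
    (hΔ : 4 * a ^ 3 + 27 * b ^ 2 ≠ 0) :
    ∃ R : EP a b Ω, (∀ R' : EP a b kb, EP.map (IsScalarTower.toAlgHom k kb Ω) R' ≠ R) ∧
      ∀ n : ℕ, 0 < n → ∃ T : EP a b Ω,
        (∀ g, EP.map ((s g : Ω →ₐ[K] Ω).restrictScalars k) T = T) ∧ n • T = R := by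
  have : CharZero Ω := charZero_of_injective_algebraMap (algebraMap k Ω).injective
  have : CharZero kb := charZero_of_injective_algebraMap (algebraMap k kb).injective
  obtain ⟨O, hO, _⟩ := hG
  have hO' := (top_geo s hs O).1 hO
  have hfix : ∀ (g : GG k Ω) (x : K), (topD s hs).s g (algebraMap K Ω x) = algebraMap K Ω x :=
    fun g x => (s _).commutes x
  obtain ⟨hne, hk, hres, W, hW, hinv⟩ := hO'
  have hex : ∃ u : K, u ∉ O := by
    by_contra hcon
    push Not at hcon
    apply hne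
    exact eq_top_iff.2 fun x _ => hcon x
  obtain ⟨u, hu⟩ := hex
  have hu0 : u ≠ 0 := fun h => hu (by rw [h]; exact O.zero_mem)
  have hmem : ∀ x : K, algebraMap K Ω x ∈ W ↔ x ∈ O := by
    intro x
    rw [← hW, ValuationSubring.mem_comap]
  have hkW : ∀ c : k, algebraMap k Ω c ∈ W := by
    intro c
    rw [IsScalarTower.algebraMap_apply k K Ω, hmem]
    exact hk c
  set U : Ω := algebraMap K Ω u with hUdef
  have hU0 : U ≠ 0 := by
    rw [hUdef]
    exact (_root_.map_ne_zero (algebraMap K Ω)).2 hu0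
  have huW : U ∉ W := fun h => hu ((hmem u).1 h)
  have hval : W.valuation U⁻¹ < 1 := by
    have h1 : ¬ W.valuation U ≤ 1 := fun h => huW ((W.valuation_le_one_iff _).1 h)
    rw [map_inv₀]
    exact inv_lt_one_of_one_lt₀ (not_le.1 h1)
  have hUD : U ∈ LL (topD s hs) := fun g _ => hfix g _
  set α : Ω := algebraMap k Ω a with hα
  set β : Ω := algebraMap k Ω b with hβ
  have hαv : W.valuation α ≤ 1 := (W.valuation_le_one_iff _).2 (hkW a)
  have hβv : W.valuation β ≤ 1 := (W.valuation_le_one_iff _).2 (hkW b)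
  have hsm : W.valuation (α * U⁻¹ ^ 4 + β * U⁻¹ ^ 6) < 1 := by
    apply lt_of_le_of_lt (W.valuation.map_add _ _)
    apply max_lt
    · rw [map_mul, map_pow]
      exact mul_lt_one_of_nonneg_of_lt_one_right hαv zero_le (pow_lt_one₀ zero_le hval (by norm_num))
    · rw [map_mul, map_pow]
      exact mul_lt_one_of_nonneg_of_lt_one_right hβv zero_le (pow_lt_one₀ zero_le hval (by norm_num))
  have hvD : 1 + (α * U⁻¹ ^ 4 + β * U⁻¹ ^ 6) ∈ LL (topD s hs) := by
    have hUi : U⁻¹ ∈ LL (topD s hs) := inv_mem hUD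
    exact add_mem (one_mem _) (add_mem (mul_mem (algebraMap_mem _ a) (pow_mem hUi 4))
      (mul_mem (algebraMap_mem _ b) (pow_mem hUi 6)))
  obtain ⟨w, hw⟩ := hHEN k Ω (topD s hs) W hkW hinv ⟨_, hvD⟩ (by
    show W.valuation (1 + (α * U⁻¹ ^ 4 + β * U⁻¹ ^ 6) - 1) < 1
    rw [add_sub_cancel_left]
    exact hsm) 2 (by norm_num)
  have hw' : 1 + (α * U⁻¹ ^ 4 + β * U⁻¹ ^ 6) = (w : Ω) ^ 2 := by
    have := congrArg (fun z : LL (topD s hs) => (z : Ω)) hw
    simpa using this
  have hE : Eq3 a b (U ^ 2) (U ^ 3 * (w : Ω)) := by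
    unfold Eq3
    rw [mul_pow, ← hw']
    field_simp
    ring
  have hxW : U ^ 2 ∉ W := by
    intro h
    apply huW
    rw [← W.valuation_le_one_iff] at h ⊢
    by_contra hcon
    push Not at hcon
    rw [map_pow] at h
    exact absurd (one_lt_pow₀ hcon (by norm_num)) (not_lt.2 h)
  refine ⟨EP.pt hΔ _ _ hE, ?_, ?_⟩
  · intro R' hR'
    rcases EP.cases hΔ R' with h0 | ⟨x, y, h, h0⟩
    · rw [h0, map_zero] at hR'
      exact EP.pt_ne_zero hΔ hE hR'.symm
    · subst h0
      rw [EP.map_pt] at hR'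
      have h1 := (EP.pt_inj hΔ hR').1
      apply hxW
      rw [← h1]
      -- an element of kb lies in W, since it is integral over k
      have hint : IsIntegral k (algebraMap kb Ω x) := by
        have hx : IsIntegral k x := (Algebra.IsAlgebraic.isAlgebraic x).isIntegral
        exact hx.map (IsScalarTower.toAlgHom k kb Ω)
      obtain ⟨q, hq, hq0⟩ := hint
      have hint' : IsIntegral W (algebraMap kb Ω x) := by
        let φ : k →+* W := (algebraMap k Ω).codRestrict W.toSubring hkW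
        refine ⟨q.map φ, hq.map φ, ?_⟩
        rw [eval₂_map]
        exact hq0
      obtain ⟨z, hz⟩ := IsIntegrallyClosed.isIntegral_iff.1 hint'
      show algebraMap kb Ω x ∈ W
      rw [← hz]
      exact z.2
  · intro n hn
    obtain ⟨x', y', h', hx', hy', hn'⟩ := hEDV k Ω (topD s hs) W hkW hinv a b hΔ _ _ hE
      (pow_mem hUD 2) (mul_mem (pow_mem hUD 3) w.2) hxW n hn
    refine ⟨EP.pt hΔ x' y' h', ?_, hn'⟩
    intro g
    rw [EP.map_pt]
    apply EP.pt_congr
    · exact (top_mem s hs x').1 hx' g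
    · exact (top_mem s hs y').1 hy' g

end

end Pool.Agent.Helper18.NF
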