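import Pool.Agent.Helper18.NF.All
import Pool.Agent.Helper18.NF.Top3
import Pool.Agent.Helper78.NF.EDV
import Pool.Agent.Helper58.NF.DSF
import Pool.Agent.Helper18.TW.RPL

/-!
# Everything together, part 2
-/

set_option autoImplicit false

namespace Pool.Agent.Helper18.NF

open Pool.Agent.Helper14.BSC Pool.Agent.Helper14.BSC.Gen Polynomial

theorem nf_EDV : ST_EDV := st_EDV nf_DLR nf_TRN nf_ALP nf_RED

theorem nf_DSF : ST_DSF :=
  st_DSF Pool.Agent.Helper14.BSC.all_ZER Pool.Agent.Helper14.BSC.all_DEP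
    Pool.Agent.Helper14.BSC.all_RK Pool.Agent.Helper14.BSC.all_BOT
    Pool.Agent.Helper22.TW.st_RPL x_UNQ

section

variable {k K kb Ω : Type} [Field k] [Field K] [Field kb] [Field Ω] [Algebra k K] [Algebra k kb]
  [Algebra kb Ω] [Algebra k Ω] [Algebra K Ω] [IsScalarTower k K Ω] [IsScalarTower k kb Ω]
  [Algebra.IsAlgebraic K Ω] [IsAlgClosure k kb]

theorem all_div [NumberField k] [IsAlgClosed Ω]
    (htr : ∃ t : K, Transcendental k t ∧ Algebra.IsAlgebraic (IntermediateField.adjoin k {t}) K)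
    (s : (kb ≃ₐ[k] kb) →* (Ω ≃ₐ[K] Ω)) (hs : IsSection s) (p : ℕ) (hp : 2 ≤ p) (a b : k)
    (hΔ : 4 * a ^ 3 + 27 * b ^ 2 ≠ 0) (R : EP a b Ω)
    (hR : ∀ R' : EP a b kb, EP.map (IsScalarTower.toAlgHom k kb Ω) R' ≠ R)
    (h : ∀ N : ℕ, ∃ T : EP a b Ω, (∀ g, EP.map ((s g : Ω →ₐ[K] Ω).restrictScalars k) T = T) ∧
      p ^ N • T = R) : IsGeometric s :=
  tr_div nf_DYC x_ONEF all_IFD all_UNI all_ALG nf_ORB htr s hs p hp a b hΔ R hR h

theorem all_geo [CharZero k] [IsAlgClosed Ω]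
    (s : (kb ≃ₐ[k] kb) →* (Ω ≃ₐ[K] Ω)) (hs : IsSection s) (hG : IsGeometric s) (a b : k)
    (hΔ : 4 * a ^ 3 + 27 * b ^ 2 ≠ 0) :
    ∃ R : EP a b Ω, (∀ R' : EP a b kb, EP.map (IsScalarTower.toAlgHom k kb Ω) R' ≠ R) ∧
      ∀ n : ℕ, 0 < n → ∃ T : EP a b Ω,
        (∀ g, EP.map ((s g : Ω →ₐ[K] Ω).restrictScalars k) T = T) ∧ n • T = R :=
  tr_geo all_HEN nf_EDV s hs hG a b hΔ

theorem all_ellk (k' : Type) [Field k'] [Algebra k k'] [Algebra k' kb] [Algebra k' Ω]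
    [IsScalarTower k k' kb] [IsScalarTower k' kb Ω] [IsAlgClosure k' kb]
    [NumberField k] [NumberField k'] [FiniteDimensional k k'] [IsAlgClosed Ω]
    (htr : ∃ t : K, Transcendental k t ∧ Algebra.IsAlgebraic (IntermediateField.adjoin k {t}) K)
    (s : (kb ≃ₐ[k] kb) →* (Ω ≃ₐ[K] Ω)) (hs : IsSection s) (a b : k')
    (hΔ : 4 * a ^ 3 + 27 * b ^ 2 ≠ 0) (p : ℕ) (hp : 2 ≤ p) (hB : BddSelmer kb a b p)
    (x y : Ω) (hx : ∀ g : kb ≃ₐ[k'] kb, s (g.restrictScalars k) x = x)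
    (hy : ∀ g : kb ≃ₐ[k'] kb, s (g.restrictScalars k) y = y)
    (hxy : y ^ 2 = x ^ 3 + algebraMap k' Ω a * x + algebraMap k' Ω b)
    (hxk : x ∉ (algebraMap k' Ω).range) : IsGeometric s :=
  tq_ell k' nf_DYC x_ONEF all_IFD all_UNI all_ALG nf_TRF nf_DVB nf_ORB nf_DSF htr s hs a b hΔ p hp
    hB x y hx hy hxy hxk

end

end Pool.Agent.Helper18.NF
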