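import Mathlib

/-!
# Rational maps have a fixed point which is unramified; moving it to infinity
-/

set_option autoImplicit false

namespace Pool.Agent.Helper18.NF.Mob

open Polynomial

/-- a rational map of degree at least two has a fixed point with nonzero multiplier -/
theorem fixed {F : Type} [Field F] [CharZero F] [IsAlgClosed F] (A B : F[X]) (hAB : IsCoprime A B)
    (hd : 2 ≤ max A.natDegree B.natDegree) (hne : A.natDegree ≠ B.natDegree + 1) :
    ∃ z : F, A.eval z = z * B.eval z ∧
      (derivative A).eval z ≠ z * (derivative B).eval z := by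
  by_contra hcon
  push Not at hcon
  have hB : ∀ z, A.eval z = z * B.eval z → B.eval z ≠ 0 := by
    intro z hz h0
    obtain ⟨u, v, huv⟩ := hAB
    have := congrArg (eval z) huv
    rw [eval_add, eval_mul, eval_mul, hz, h0] at this
    simp at this
  set G : F[X] := A - X * B with hG
  set H : F[X] := derivative A - X * derivative B with hH
  have hB0 : B ≠ 0 := by
    intro h0
    have hAu : IsUnit A := by
      rw [h0] at hAB
      exact isCoprime_zero_right.1 hAB
    have h1 := natDegree_eq_zero_of_isUnit hAu
    rw [h0, natDegree_zero, h1] at hd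
    omega
  have hXB : (X * B).natDegree = B.natDegree + 1 := by
    rw [natDegree_X_mul hB0]
  have hGdeg : G.natDegree = max A.natDegree (B.natDegree + 1) := by
    rcases lt_or_gt_of_ne hne with h | h
    · rw [hG, natDegree_sub_eq_right_of_natDegree_lt (by rw [hXB]; exact h), hXB,
        max_eq_right h.le]
    · rw [hG, natDegree_sub_eq_left_of_natDegree_lt (by rw [hXB]; exact h), max_eq_left h.le]
  have hG0 : G ≠ 0 := by
    intro h0
    rw [h0, natDegree_zero] at hGdeg
    have : B.natDegree + 1 ≤ 0 := by
      rw [hGdeg]; exact le_max_right _ _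
    omega
  have hroot : ∀ z ∈ G.roots, A.eval z = z * B.eval z := by
    intro z hz
    have h1 := (mem_roots hG0).1 hz
    rw [IsRoot, hG, eval_sub, eval_mul, eval_X] at h1
    exact sub_eq_zero.1 h1
  have hnodup : G.roots.Nodup := by
    classical
    rw [Multiset.nodup_iff_count_le_one]
    intro z
    rw [count_roots]
    by_contra hlt
    push Not at hlt
    obtain ⟨h1, h2⟩ := (one_lt_rootMultiplicity_iff_isRoot hG0).1 hlt
    have h3 := hroot z ((mem_roots hG0).2 h1)
    rw [IsRoot, hG, derivative_sub, derivative_mul, derivative_X, eval_sub, eval_add, eval_mul,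
      eval_mul, eval_one, eval_X, hcon z h3] at h2
    apply hB z h3
    linear_combination -h2
  have hHdeg : H.natDegree < G.natDegree := by
    rw [hGdeg]
    have h1 : H.natDegree ≤ max (derivative A).natDegree (X * derivative B).natDegree :=
      natDegree_sub_le _ _
    have h2 : (derivative A).natDegree ≤ A.natDegree - 1 := natDegree_derivative_le A
    have h3 : (X * derivative B).natDegree ≤ B.natDegree := by
      rcases eq_or_ne (derivative B) 0 with h0 | h0
      · rw [h0, mul_zero, natDegree_zero]; exact Nat.zero_le _
      · rw [natDegree_X_mul h0]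
        have h4 : B.natDegree ≠ 0 := by
          intro h5
          apply h0
          rw [natDegree_eq_zero.1 h5 |>.choose_spec.symm, derivative_C]
        have := natDegree_derivative_lt h4
        omega
    have h5 : max A.natDegree (B.natDegree + 1) ≥ B.natDegree + 1 := le_max_right _ _
    have h6 : max A.natDegree (B.natDegree + 1) ≥ A.natDegree := le_max_left _ _
    have h7 : max (derivative A).natDegree (X * derivative B).natDegree ≤
        max (A.natDegree - 1) B.natDegree := max_le_max h2 h3
    rcases le_total (A.natDegree - 1) B.natDegree with h8 | h8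
    · rw [max_eq_right h8] at h7
      omega
    · rw [max_eq_left h8] at h7
      omega
  have hH0 : H = 0 := by
    classical
    apply eq_zero_of_natDegree_lt_card_of_eval_eq_zero' H G.roots.toFinset
    · intro z hz
      rw [hH, eval_sub, eval_mul, eval_X]
      exact sub_eq_zero.2 (hcon z (hroot z (Multiset.mem_toFinset.1 hz)))
    · rw [Multiset.toFinset_card_of_nodup hnodup, IsAlgClosed.card_roots_eq_natDegree]
      exact hHdeg
  have hder : derivative A = X * derivative B := sub_eq_zero.1 hH0
  -- compare coefficients
  have hdegder : ∀ P : F[X], P.natDegree ≠ 0 → (derivative P).natDegree = P.natDegree - 1 := by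
    intro P hP
    apply le_antisymm (natDegree_derivative_le P)
    apply le_natDegree_of_ne_zero
    rw [coeff_derivative]
    have h1 : P.natDegree - 1 + 1 = P.natDegree := by omega
    rw [h1]
    have h2 : P.coeff P.natDegree ≠ 0 := by
      rw [coeff_natDegree, leadingCoeff_ne_zero]
      intro h0
      rw [h0, natDegree_zero] at hP
      exact hP rfl
    exact mul_ne_zero h2 (Nat.cast_add_one_ne_zero (P.natDegree - 1))
  rcases eq_or_ne B.natDegree 0 with hb | hb
  · have hBd : derivative B = 0 := by
      rw [(natDegree_eq_zero.1 hb).choose_spec.symm, derivative_C]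
    rw [hBd, mul_zero] at hder
    have ha : A.natDegree ≠ 0 := by
      intro h0
      rw [h0, hb] at hd
      omega
    have h1 := hdegder A ha
    rw [hder, natDegree_zero] at h1
    rw [hb] at hd hne
    rw [max_eq_left (Nat.zero_le _)] at hd
    omega
  · have hBd : derivative B ≠ 0 := by
      intro h0
      exact hb (derivative_eq_zero.1 h0)
    have h1 : (derivative A).natDegree = B.natDegree := by
      rw [hder, natDegree_X_mul hBd, hdegder B hb]
      omega
    have ha : A.natDegree ≠ 0 := by
      intro h0
      have h2 : derivative A = 0 := by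
        rw [(natDegree_eq_zero.1 h0).choose_spec.symm, derivative_C]
      rw [h2, natDegree_zero] at h1
      exact hb h1.symm
    rw [hdegder A ha] at h1
    omega

section

variable {k : Type} [Field k]

/-- numerator of the conjugate map -/
noncomputable def num (A B : k[X]) (z : k) : k[X] :=
  reflect (max A.natDegree B.natDegree) (taylor z B)

/-- denominator of the conjugate map -/
noncomputable def den (A B : k[X]) (z : k) : k[X] :=
  reflect (max A.natDegree B.natDegree) (taylor z (A - C z * B))

theorem deg_sub (A B : k[X]) (z : k) :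
    (A - C z * B).natDegree ≤ max A.natDegree B.natDegree := by
  refine (natDegree_sub_le _ _).trans (max_le_max le_rfl ?_)
  exact natDegree_C_mul_le z B

theorem aeval_reflect {F : Type} [Field F] [Algebra k F] (z : k) (P : k[X]) (d : ℕ)
    (hd : P.natDegree ≤ d) (x : F) (hx : x ≠ algebraMap k F z) :
    aeval (x - algebraMap k F z)⁻¹ (reflect d (taylor z P)) =
      (x - algebraMap k F z)⁻¹ ^ d * aeval x P := by
  have h0 : x - algebraMap k F z ≠ 0 := sub_ne_zero.2 hx
  let : Invertible (x - algebraMap k F z) := invertibleOfNonzero h0
  have h1 := eval₂_reflect_mul_pow (algebraMap k F) (x - algebraMap k F z) d (taylor z P)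
    (by rw [natDegree_taylor]; exact hd)
  rw [invOf_eq_inv] at h1
  have h2 : eval₂ (algebraMap k F) (x - algebraMap k F z) (taylor z P) = aeval x P := by
    rw [taylor_apply, eval₂_comp, eval₂_add, eval₂_X, eval₂_C, sub_add_cancel]
    rfl
  rw [h2] at h1
  have h3 : aeval (x - algebraMap k F z)⁻¹ (reflect d (taylor z P)) =
      eval₂ (algebraMap k F) (x - algebraMap k F z)⁻¹ (reflect d (taylor z P)) := rfl
  rw [h3, ← h1, inv_pow]
  field_simp

theorem map_taylor' {F : Type} [Field F] (φ : k →+* F) (z : k) (P : k[X]) :
    (taylor z P).map φ = taylor (φ z) (P.map φ) := by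
  rw [taylor_apply, taylor_apply, map_comp, Polynomial.map_add, map_X, map_C]

theorem coeff_num (A B : k[X]) (z : k) :
    (num A B z).coeff (max A.natDegree B.natDegree) = B.eval z := by
  rw [num, coeff_reflect, revAt_le le_rfl, Nat.sub_self, taylor_coeff_zero]

theorem deg_num (A B : k[X]) (z : k) (hz : B.eval z ≠ 0) :
    (num A B z).natDegree = max A.natDegree B.natDegree := by
  apply le_antisymm
  · refine natDegree_reflect_le.trans (max_le le_rfl ?_)
    rw [natDegree_taylor]
    exact le_max_right _ _
  · apply le_natDegree_of_ne_zero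
    rw [coeff_num]
    exact hz

theorem deg_den (A B : k[X]) (z : k) (h1 : A.eval z = z * B.eval z)
    (h2 : (derivative A).eval z ≠ z * (derivative B).eval z)
    (hd : 1 ≤ max A.natDegree B.natDegree) :
    (den A B z).natDegree = max A.natDegree B.natDegree - 1 := by
  set d := max A.natDegree B.natDegree with hdd
  have hle : (den A B z).natDegree ≤ d := by
    refine natDegree_reflect_le.trans (max_le le_rfl ?_)
    rw [natDegree_taylor]
    exact deg_sub A B z
  have hcd : (den A B z).coeff d = 0 := by
    rw [den, ← hdd, coeff_reflect, revAt_le le_rfl, Nat.sub_self, taylor_coeff_zero, eval_sub,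
      eval_mul, eval_C, h1, sub_self]
  have hcd' : (den A B z).coeff (d - 1) ≠ 0 := by
    have h3 : d - (d - 1) = 1 := by omega
    rw [den, ← hdd, coeff_reflect, revAt_le (Nat.sub_le _ _), h3, taylor_coeff_one, derivative_sub,
      derivative_C_mul, eval_sub, eval_mul, eval_C]
    exact sub_ne_zero.2 h2
  apply le_antisymm
  · rw [natDegree_le_iff_coeff_eq_zero]
    intro N hN
    rcases Nat.lt_or_ge d N with h | h
    · exact coeff_eq_zero_of_natDegree_lt (lt_of_le_of_lt hle h)
    · have : N = d := by omega
      rw [this, hcd]
  · exact le_natDegree_of_ne_zero hcd'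

theorem cop (A B : k[X]) (z : k) (hAB : IsCoprime A B)
    (hd : 1 ≤ max A.natDegree B.natDegree) : IsCoprime (num A B z) (den A B z) := by
  rw [isCoprime_iff_aeval_ne_zero_of_isAlgClosed k (AlgebraicClosure k)]
  intro w
  by_contra hcon
  push Not at hcon
  obtain ⟨hn, hm⟩ := hcon
  set d := max A.natDegree B.natDegree with hdd
  have hA0 : A ≠ 0 ∨ B ≠ 0 := by
    by_contra h0
    push Not at h0
    rw [h0.1, h0.2, natDegree_zero, max_self] at hdd
    omega
  rcases eq_or_ne w 0 with hw | hw
  · subst hw
    rw [← coeff_zero_eq_aeval_zero', map_eq_zero] at hn hm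
    have e1 : (taylor z B).coeff d = 0 := by
      have := hn
      rw [num, ← hdd, coeff_reflect, revAt_le (Nat.zero_le _), Nat.sub_zero] at this
      exact this
    have e2 : (taylor z (A - C z * B)).coeff d = 0 := by
      have := hm
      rw [den, ← hdd, coeff_reflect, revAt_le (Nat.zero_le _), Nat.sub_zero] at this
      exact this
    rcases eq_or_lt_of_le (le_max_right A.natDegree B.natDegree) with hb | hb
    · have hb' : B.natDegree = d := hb
      rw [← hb', coeff_taylor_natDegree, leadingCoeff_eq_zero] at e1
      have hb0 : B.natDegree = 0 := by rw [e1, natDegree_zero]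
      omega
    · have ha : A.natDegree = d := by
        rcases max_choice A.natDegree B.natDegree with h | h
        · exact h.symm
        · omega
      have hlt : (C z * B).natDegree < A.natDegree := by
        refine lt_of_le_of_lt (natDegree_C_mul_le z B) ?_
        omega
      have h3 : (A - C z * B).natDegree = d := by
        rw [natDegree_sub_eq_left_of_natDegree_lt hlt, ha]
      rw [← h3, coeff_taylor_natDegree, leadingCoeff_eq_zero] at e2
      rw [e2, natDegree_zero] at h3
      omega
  · set x : AlgebraicClosure k := w⁻¹ + algebraMap k _ z with hx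
    have hxz : x ≠ algebraMap k _ z := by
      rw [hx]
      intro h0
      have : w⁻¹ = 0 := by linear_combination h0
      exact inv_ne_zero hw this
    have hxw : (x - algebraMap k _ z)⁻¹ = w := by
      rw [hx, add_sub_cancel_right, inv_inv]
    have e1 := aeval_reflect z B d (le_max_right _ _) x hxz
    have e2 := aeval_reflect z (A - C z * B) d (deg_sub A B z) x hxz
    rw [hxw] at e1 e2
    have f1 : aeval x B = 0 := by
      have : w ^ d * aeval x B = 0 := e1.symm.trans hn
      exact (mul_eq_zero.1 this).resolve_left (pow_ne_zero _ hw)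
    have f2 : aeval x (A - C z * B) = 0 := by
      have : w ^ d * aeval x (A - C z * B) = 0 := e2.symm.trans hm
      exact (mul_eq_zero.1 this).resolve_left (pow_ne_zero _ hw)
    rw [map_sub, map_mul, f1, mul_zero, sub_zero] at f2
    rcases (isCoprime_iff_aeval_ne_zero_of_isAlgClosed k (AlgebraicClosure k) A B).1 hAB x with h | h
    · exact h f2
    · exact h f1

theorem alg_aeval {F : Type} [Field F] [Algebra k F] (P : k[X]) {x : F} (hx : IsAlgebraic k x) :
    IsAlgebraic k (aeval x P) := by
  have h1 : x ∈ algebraicClosure k F := mem_algebraicClosure_iff.2 hx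
  have h3 := aeval_algHom_apply (algebraicClosure k F).val (⟨x, h1⟩ : algebraicClosure k F) P
  have h2 : aeval x P = ((aeval (⟨x, h1⟩ : algebraicClosure k F) P : algebraicClosure k F) : F) :=
    h3
  rw [h2]
  exact mem_algebraicClosure_iff.1 (aeval (⟨x, h1⟩ : algebraicClosure k F) P).2

theorem alg_step {F : Type} [Field F] [Algebra k F] (A B : k[X]) {x : F} (hx : IsAlgebraic k x) :
    IsAlgebraic k (aeval x A / aeval x B) := by
  rw [div_eq_mul_inv]
  exact (alg_aeval A hx).mul (alg_aeval B hx).inv

theorem alg_iter {F : Type} [Field F] [Algebra k F] (A B : k[X]) (N : ℕ) :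
    ∀ x : F, IsAlgebraic k x → IsAlgebraic k ((fun x : F => aeval x A / aeval x B)^[N] x) := by
  induction N with
  | zero => intro x hx; exact hx
  | succ N ih =>
    intro x hx
    rw [Function.iterate_succ_apply]
    exact ih _ (alg_step A B hx)

theorem iter {F : Type} [Field F] [Algebra k F] (A B : k[X]) (hB : B ≠ 0) (z : k) (f : F)
    (hf : Transcendental k f) (N : ℕ) :
    ∀ g : F, (fun x : F => aeval x A / aeval x B)^[N] g = f →
      (fun x : F => aeval x (num A B z) / aeval x (den A B z))^[N] (g - algebraMap k F z)⁻¹ =
        (f - algebraMap k F z)⁻¹ := by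
  induction N with
  | zero =>
    intro g hg
    simp only [Function.iterate_zero, id] at hg ⊢
    rw [hg]
  | succ N ih =>
    intro g hg
    have hgt : Transcendental k g := by
      intro halg
      apply hf
      rw [← hg]
      exact alg_iter A B (N + 1) g halg
    have hgz : g ≠ algebraMap k F z := by
      intro h
      apply hgt
      rw [h]
      exact isAlgebraic_algebraMap z
    have hBg : aeval g B ≠ 0 := fun h => hB (by
      by_contra hB'
      exact hgt ⟨B, hB', h⟩)
    rw [Function.iterate_succ_apply] at hg ⊢
    have h1 := ih _ hg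
    have h2 : aeval (g - algebraMap k F z)⁻¹ (num A B z) / aeval (g - algebraMap k F z)⁻¹ (den A B z) =
        (aeval g A / aeval g B - algebraMap k F z)⁻¹ := by
      rw [num, den, aeval_reflect z B _ (le_max_right _ _) g hgz,
        aeval_reflect z (A - C z * B) _ (deg_sub A B z) g hgz, map_sub, map_mul, aeval_C,
        mul_div_mul_left _ _ (pow_ne_zero _ (inv_ne_zero (sub_ne_zero.2 hgz)))]
      rw [div_sub' hBg, inv_div, mul_comm (algebraMap k F z)]
    rw [← h1]
    show (fun x : F => aeval x (num A B z) / aeval x (den A B z))^[N] (aeval (g - algebraMap k F z)⁻¹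
      (num A B z) / aeval (g - algebraMap k F z)⁻¹ (den A B z)) = _
    rw [h2]

end

end Pool.Agent.Helper18.NF.Mob
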