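import Pool.Agent.Helper18.NF.Top3
import Pool.Agent.Helper18.NF.Mob

/-!
# Backward orbits under arbitrary rational maps over finite extensions of `k`
-/

set_option autoImplicit false

namespace Pool.Agent.Helper18.NF

open Pool.Agent.Helper14.BSC Pool.Agent.Helper14.BSC.Gen Polynomial

section

variable {k K kb Ω : Type} [Field k] [Field K] [Field kb] [Field Ω] [Algebra k K] [Algebra k kb]
  [Algebra kb Ω] [Algebra k Ω] [Algebra K Ω] [IsScalarTower k K Ω] [IsScalarTower k kb Ω]
  [Algebra.IsAlgebraic K Ω] [IsAlgClosure k kb]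
  (k' : Type) [Field k'] [Algebra k k'] [Algebra k' kb] [Algebra k' Ω] [IsScalarTower k k' kb]
  [IsScalarTower k' kb Ω] [IsAlgClosure k' kb]

/-- Theorem C over a finite extension -/
theorem tq_gen (hDYC : ST_DYC) (hONEF : Pool.Agent.Helper22.TW.ST_ONEF) (hIFD : ST_IFD)
    (hUNI : ST_UNI) (hALG : ST_ALG)
    (hDSF : ST_DSF) [NumberField k] [NumberField k'] [FiniteDimensional k k'] [IsAlgClosed Ω]
    (htr : ∃ t : K, Transcendental k t ∧ Algebra.IsAlgebraic (IntermediateField.adjoin k {t}) K)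
    (s : (kb ≃ₐ[k] kb) →* (Ω ≃ₐ[K] Ω)) (hs : IsSection s)
    (h : ∃ A B : k'[X], Dyn A B ∧ ∃ f : LL (tqD k' s hs), NC (tqD k' s hs) f ∧
      Back (tqD k' s hs) A B f) : IsGeometric s := by
  have hst : IsScalarTower k k' Ω := by
    refine IsScalarTower.of_algebraMap_eq fun c => ?_
    rw [IsScalarTower.algebraMap_apply k' kb Ω, ← IsScalarTower.algebraMap_apply k k' kb,
      ← IsScalarTower.algebraMap_apply k kb Ω]
  apply tq_main hONEF hIFD hUNI hALG htr s hs
  set D := topD s hs with hD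
  set D' := tqD k' s hs with hD'
  have : CharZero Ω := charZero_of_injective_algebraMap (algebraMap k Ω).injective
  have : CharZero K := charZero_of_injective_algebraMap (algebraMap k K).injective
  obtain ⟨A, B, hAB, f, hf, hback⟩ := h
  obtain ⟨G, hG, hroot⟩ := hDYC k' Ω D' A B hAB f hf hback
  have hsub : ∀ z : Ω, (∀ g, D.s g z = z) → ∀ g, D'.s g z = z := by
    intro z hz g
    have h1 : ∀ g, s g z = z := (top_mem s hs z).1 (fun g _ => hz g)
    exact h1 _
  obtain ⟨t, ht, hta⟩ := htr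
  have htD : algebraMap K Ω t ∈ LL D := (top_mem s hs _).2 (fun g => (s g).commutes t)
  have htN : NC D ⟨_, htD⟩ := by
    rw [tp_NC]
    apply top_range
    rintro ⟨c, hc⟩
    apply ht
    rw [← hc]
    exact isAlgebraic_algebraMap c
  have halg : ∀ y z : LL D', (∀ c : k', y ≠ algebraMap k' (LL D') c) →
      ∃ G : Polynomial (Polynomial k'), G ≠ 0 ∧
        Polynomial.eval₂ (Polynomial.aeval y).toRingHom z G = 0 := by
    have hKt : Algebra.IsAlgebraic k k' := inferInstance
    have htk' : Transcendental k' (algebraMap K Ω t) := by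
      intro halg
      have h1 : IsAlgebraic k (algebraMap K Ω t) := halg.restrictScalars k
      exact ht ((isAlgebraic_algebraMap_iff (algebraMap K Ω).injective).1 h1)
    have hall : Algebra.IsAlgebraic (IntermediateField.adjoin k' {algebraMap K Ω t}) Ω := by
      refine ⟨fun w => ?_⟩
      have h1 : IsAlgebraic K w := Algebra.IsAlgebraic.isAlgebraic w
      set F : IntermediateField k' Ω := IntermediateField.adjoin k' {algebraMap K Ω t} with hF
      have hKF : ∀ u : K, IsAlgebraic F (algebraMap K Ω u) := by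
        intro u
        obtain ⟨q, hq0, hq⟩ := hta.isAlgebraic u
        have hmap : ∀ v : IntermediateField.adjoin k {t}, algebraMap K Ω (v : K) ∈ F := by
          intro v
          have hle : IntermediateField.adjoin k {t} ≤
              (F.restrictScalars k).comap (IsScalarTower.toAlgHom k K Ω) := by
            rw [IntermediateField.adjoin_simple_le_iff]
            show algebraMap K Ω t ∈ F
            exact IntermediateField.mem_adjoin_simple_self k' _
          exact hle v.2
        let φ : IntermediateField.adjoin k {t} →+* F :=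
          ((algebraMap K Ω).comp (algebraMap (IntermediateField.adjoin k {t}) K)).codRestrict
            F.toSubfield hmap
        refine ⟨q.map φ, (Polynomial.map_ne_zero_iff φ.injective).2 hq0, ?_⟩
        have h2 : aeval (algebraMap K Ω u) (q.map φ) =
            eval₂ ((algebraMap K Ω).comp (algebraMap (IntermediateField.adjoin k {t}) K))
              (algebraMap K Ω u) q := by
          rw [aeval_def, eval₂_map]
          rfl
        rw [h2, ← hom_eval₂]
        have h3 : eval₂ (algebraMap (IntermediateField.adjoin k {t}) K) u q = 0 := hq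
        rw [h3, map_zero]
      set F' : IntermediateField F Ω := algebraicClosure F Ω with hF'
      obtain ⟨q, hq0, hq⟩ := h1
      have hmap : ∀ u : K, algebraMap K Ω u ∈ F' := fun u => mem_algebraicClosure_iff.2 (hKF u)
      let ψ : K →+* F' := (algebraMap K Ω).codRestrict F'.toSubfield hmap
      have h4 : IsAlgebraic F' w := by
        refine ⟨q.map ψ, (Polynomial.map_ne_zero_iff ψ.injective).2 hq0, ?_⟩
        have h2 : aeval w (q.map ψ) = eval₂ (algebraMap K Ω) w q := by
          rw [aeval_def, eval₂_map]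
          rfl
        rw [h2]
        exact hq
      have : Algebra.IsAlgebraic F F' := inferInstance
      exact h4.restrictScalars F
    exact hALG k' Ω Ω D' ⟨algebraMap K Ω t, htk', hall⟩
  obtain ⟨F, hF, hRF⟩ := hDSF k k' Ω D D' hsub halg f hf G hG hroot ⟨_, htD⟩ htN
  exact ⟨⟨_, htD⟩, htN, F, hF, hRF⟩

end

section

variable {k K kb Ω : Type} [Field k] [Field K] [Field kb] [Field Ω] [Algebra k K] [Algebra k kb]
  [Algebra kb Ω] [Algebra k Ω] [Algebra K Ω] [IsScalarTower k K Ω] [IsScalarTower k kb Ω]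
  [Algebra.IsAlgebraic K Ω] [IsAlgClosure k kb]

/-- `x` is fixed by `s (Gal(kb / k'))` -/
def InFix (s : (kb ≃ₐ[k] kb) →* (Ω ≃ₐ[K] Ω)) (k' : IntermediateField k kb) (x : Ω) : Prop :=
  ∀ g : kb ≃ₐ[k] kb, (∀ c ∈ k', g c = c) → s g x = x

omit [Algebra k Ω] [Algebra K Ω] [IsScalarTower k K Ω] [IsScalarTower k kb Ω]
  [Algebra.IsAlgebraic K Ω] [Algebra kb Ω] [Field Ω] [Field K] [Algebra k K] in
theorem icl (k' : IntermediateField k kb) : IsAlgClosure k' kb := by
  have : IsAlgClosed kb := IsAlgClosure.isAlgClosed k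
  have : Algebra.IsAlgebraic k kb := IsAlgClosure.isAlgebraic
  have : Algebra.IsAlgebraic k' kb := Algebra.IsAlgebraic.tower_top (K := k) k'
  exact ⟨inferInstance, inferInstance⟩

/-- backward orbits under arbitrary rational maps of degree at least two -/
theorem tq_any (hDYC : ST_DYC) (hONEF : Pool.Agent.Helper22.TW.ST_ONEF) (hIFD : ST_IFD)
    (hUNI : ST_UNI) (hALG : ST_ALG) (hDSF : ST_DSF) [NumberField k] [IsAlgClosed Ω]
    (htr : ∃ t : K, Transcendental k t ∧ Algebra.IsAlgebraic (IntermediateField.adjoin k {t}) K)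
    (s : (kb ≃ₐ[k] kb) →* (Ω ≃ₐ[K] Ω)) (hs : IsSection s)
    (k' : IntermediateField k kb) [FiniteDimensional k k'] (A B : k'[X]) (hAB : IsCoprime A B)
    (hd : 2 ≤ max A.natDegree B.natDegree) (f : Ω) (hf : Transcendental k f)
    (h : ∀ N : ℕ, ∃ g : Ω, InFix s k' g ∧ (fun x : Ω => aeval x A / aeval x B)^[N] g = f) :
    IsGeometric s := by
  have hkb : IsAlgClosed kb := IsAlgClosure.isAlgClosed k
  have hka : Algebra.IsAlgebraic k kb := IsAlgClosure.isAlgebraic
  have hnf : NumberField k' := NumberField.of_module_finite k k'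
  have hicl : IsAlgClosure k' kb := icl k'
  have hfk' : InFix s k' f := by
    obtain ⟨g, hg, hgf⟩ := h 0
    rw [← hgf]
    exact hg
  rcases eq_or_ne A.natDegree (B.natDegree + 1) with hdeg | hdeg
  · have hfD : f ∈ LL (tqD k' s hs) :=
      (tq_mem k' s hs f).2 fun g => hfk' _ fun c hc => g.commutes ⟨c, hc⟩
    refine tq_gen k' hDYC hONEF hIFD hUNI hALG hDSF htr s hs ⟨A, B, ⟨hAB, hdeg, ?_⟩,
      ⟨f, hfD⟩, ?_, ?_⟩
    · rcases le_total A.natDegree B.natDegree with h1 | h1
      · omega
      · rw [max_eq_left h1] at hd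
        omega
    · intro c hc
      apply hf
      have h1 : f = algebraMap k' Ω c := congrArg (fun z : LL (tqD k' s hs) => (z : Ω)) hc
      rw [h1]
      have h2 : IsAlgebraic k (c : kb) := Algebra.IsAlgebraic.isAlgebraic _
      exact h2.algHom (IsScalarTower.toAlgHom k kb Ω)
    · intro N
      obtain ⟨g, hg, hgf⟩ := h N
      have hgD : g ∈ LL (tqD k' s hs) :=
        (tq_mem k' s hs g).2 fun σ => hg _ fun c hc => σ.commutes ⟨c, hc⟩
      refine ⟨⟨g, hgD⟩, Subtype.ext ?_⟩
      rw [tp_dl]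
      exact hgf
  · have hch : CharZero kb := charZero_of_injective_algebraMap (algebraMap k kb).injective
    obtain ⟨z, hz1, hz2⟩ := Mob.fixed (A.map (algebraMap k' kb)) (B.map (algebraMap k' kb))
      ((isCoprime_map (algebraMap k' kb)).2 hAB) (by rw [natDegree_map, natDegree_map]; exact hd)
      (by rw [natDegree_map, natDegree_map]; exact hdeg)
    have hzk : FiniteDimensional k (IntermediateField.adjoin k {z}) :=
      IntermediateField.adjoin.finiteDimensional (Algebra.IsIntegral.isIntegral z)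
    set k2 : IntermediateField k kb := k' ⊔ IntermediateField.adjoin k {z} with hk2
    have hfd : FiniteDimensional k k2 := IntermediateField.finiteDimensional_sup _ _
    have hle : k' ≤ k2 := le_sup_left
    have hzk2 : z ∈ k2 := (le_sup_right : _ ≤ k2) (IntermediateField.mem_adjoin_simple_self k z)
    have hnf2 : NumberField k2 := NumberField.of_module_finite k k2
    have hicl2 : IsAlgClosure k2 kb := icl k2
    set ι : k' →+* k2 := (IntermediateField.inclusion hle).toRingHom with hι
    have hιkb : (algebraMap k2 kb).comp ι = algebraMap k' kb := RingHom.ext fun _ => rfl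
    have hιΩ : (algebraMap k2 Ω).comp ι = algebraMap k' Ω := RingHom.ext fun _ => rfl
    set z' : k2 := ⟨z, hzk2⟩ with hz'
    have hinj : Function.Injective (algebraMap k2 kb) := (algebraMap k2 kb).injective
    have hev : ∀ P : k'[X], algebraMap k2 kb ((P.map ι).eval z') =
        (P.map (algebraMap k' kb)).eval z := by
      intro P
      rw [← hιkb, ← Polynomial.map_map, ← eval₂_at_apply, eval_map]
      rfl
    have e1 : (A.map ι).eval z' = z' * (B.map ι).eval z' := by
      apply hinj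
      rw [map_mul, hev, hev, hz1]
      rfl
    have e2 : (derivative (A.map ι)).eval z' ≠ z' * (derivative (B.map ι)).eval z' := by
      intro h0
      apply hz2
      have h1 := congrArg (algebraMap k2 kb) h0
      rw [map_mul, derivative_map, derivative_map, hev, hev] at h1
      rw [derivative_map, derivative_map]
      exact h1
    have hcop : IsCoprime (A.map ι) (B.map ι) := (isCoprime_map ι).2 hAB
    have hd2 : 2 ≤ max (A.map ι).natDegree (B.map ι).natDegree := by
      rw [natDegree_map, natDegree_map]; exact hd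
    have hBz : (B.map ι).eval z' ≠ 0 := by
      intro h0
      obtain ⟨u, v, huv⟩ := hcop
      have h1 := congrArg (eval z') huv
      rw [eval_add, eval_mul, eval_mul, e1, h0] at h1
      simp at h1
    have hB0 : B.map ι ≠ 0 := by
      intro h0
      rw [h0, eval_zero] at hBz
      exact hBz rfl
    have hmemM : ∀ x : Ω, InFix s k' x → x ∈ LL (tqD k2 s hs) := by
      intro x hx
      exact (tq_mem k2 s hs x).2 fun σ => hx _ fun c hc => σ.commutes ⟨c, hle hc⟩
    have hfr : Transcendental k2 f := by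
      intro halg
      apply hf
      have : IsScalarTower k k2 Ω := by
        refine IsScalarTower.of_algebraMap_eq fun c => ?_
        rw [IsScalarTower.algebraMap_apply k2 kb Ω, ← IsScalarTower.algebraMap_apply k k2 kb,
          ← IsScalarTower.algebraMap_apply k kb Ω]
      exact halg.restrictScalars k
    have hfz : (f - algebraMap k2 Ω z')⁻¹ ∈ LL (tqD k2 s hs) :=
      inv_mem (sub_mem (hmemM f hfk') (algebraMap_mem _ z'))
    refine tq_gen k2 hDYC hONEF hIFD hUNI hALG hDSF htr s hs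
      ⟨Mob.num (A.map ι) (B.map ι) z', Mob.den (A.map ι) (B.map ι) z',
        ⟨Mob.cop _ _ _ hcop (by omega), ?_, ?_⟩, ⟨_, hfz⟩, ?_, ?_⟩
    · rw [Mob.deg_num _ _ _ hBz, Mob.deg_den _ _ _ e1 e2 (by omega)]
      omega
    · rw [Mob.deg_den _ _ _ e1 e2 (by omega)]
      omega
    · intro c hc
      have h1 : (f - algebraMap k2 Ω z')⁻¹ = algebraMap k2 Ω c :=
        congrArg (fun z : LL (tqD k2 s hs) => (z : Ω)) hc
      apply hfr
      have h2 : f = algebraMap k2 Ω (c⁻¹ + z') := by
        rw [map_add, map_inv₀, ← h1, inv_inv, sub_add_cancel]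
      rw [h2]
      exact isAlgebraic_algebraMap _
    · intro N
      obtain ⟨g, hg, hgf⟩ := h N
      have hgz : (g - algebraMap k2 Ω z')⁻¹ ∈ LL (tqD k2 s hs) :=
        inv_mem (sub_mem (hmemM g hg) (algebraMap_mem _ z'))
      refine ⟨⟨_, hgz⟩, Subtype.ext ?_⟩
      rw [tp_dl]
      refine Mob.iter (A.map ι) (B.map ι) hB0 z' f hfr N g ?_
      have h3 : (fun x : Ω => aeval x (A.map ι) / aeval x (B.map ι)) =
          fun x : Ω => aeval x A / aeval x B := by
        funext x
        have h4 : ∀ P : k'[X], aeval x (P.map ι) = aeval x P := by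
          intro P
          rw [aeval_def, eval₂_map, hιΩ]
          rfl
        rw [h4, h4]
      rw [h3]
      exact hgf

/-- an infinitely `p`-divisible nonconstant point over the fixed field of `s (Gal(kb / k'))` -/
theorem tq_div (hDYC : ST_DYC) (hONEF : Pool.Agent.Helper22.TW.ST_ONEF) (hIFD : ST_IFD)
    (hUNI : ST_UNI) (hALG : ST_ALG) (hDSF : ST_DSF) (hORB : ST_ORB) [NumberField k] [IsAlgClosed Ω]
    [CharZero Ω]
    (htr : ∃ t : K, Transcendental k t ∧ Algebra.IsAlgebraic (IntermediateField.adjoin k {t}) K)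
    (s : (kb ≃ₐ[k] kb) →* (Ω ≃ₐ[K] Ω)) (hs : IsSection s)
    (k' : IntermediateField k kb) [FiniteDimensional k k'] (a b : k')
    (hΔ : 4 * a ^ 3 + 27 * b ^ 2 ≠ 0) (p : ℕ) (hp : 2 ≤ p) (x y : Ω) (hxy : Eq3 a b x y)
    (hx : Transcendental k x)
    (h : ∀ N : ℕ, ∃ (x' y' : Ω) (h' : Eq3 a b x' y'), InFix s k' x' ∧ InFix s k' y' ∧
      p ^ N • EP.pt hΔ x' y' h' = EP.pt hΔ x y hxy) : IsGeometric s := by
  have hnf : NumberField k' := NumberField.of_module_finite k k'
  have hicl : IsAlgClosure k' kb := icl k'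
  have : CharZero (LL (tqD k' s hs)) :=
    charZero_of_injective_algebraMap (algebraMap k' (LL (tqD k' s hs))).injective
  have hmemM : ∀ x : Ω, InFix s k' x → x ∈ LL (tqD k' s hs) := by
    intro x hx
    exact (tq_mem k' s hs x).2 fun σ => hx _ fun c hc => σ.commutes ⟨c, hc⟩
  have hlift : ∀ (x' y' : Ω) (h' : Eq3 a b x' y'), InFix s k' x' → InFix s k' y' →
      ∃ T : EP a b (LL (tqD k' s hs)), EP.map (LL (tqD k' s hs)).val T = EP.pt hΔ x' y' h' := by
    intro x' y' h' hx' hy'
    have hE : Eq3 a b (⟨x', hmemM x' hx'⟩ : LL (tqD k' s hs)) ⟨y', hmemM y' hy'⟩ := by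
      unfold Eq3
      apply Subtype.ext
      exact h'
    exact ⟨EP.pt hΔ _ _ hE, by rw [EP.map_pt]; rfl⟩
  obtain ⟨x₀, y₀, h₀, hx₀, hy₀, he₀⟩ := h 0
  rw [pow_zero, one_smul] at he₀
  obtain ⟨hxx, hyy⟩ := EP.pt_inj hΔ he₀
  subst hxx hyy
  have hE : Eq3 a b (⟨x₀, hmemM x₀ hx₀⟩ : LL (tqD k' s hs)) ⟨y₀, hmemM y₀ hy₀⟩ := by
    unfold Eq3
    apply Subtype.ext
    exact h₀
  have hN : NC (tqD k' s hs) ⟨x₀, hmemM x₀ hx₀⟩ := by
    intro c hc
    apply hx
    have h1 : x₀ = algebraMap k' Ω c := congrArg (fun z : LL (tqD k' s hs) => (z : Ω)) hc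
    rw [h1]
    have h2 : IsAlgebraic k (c : kb) := (icl (k := k) (kb := kb) ⊥).isAlgebraic.isAlgebraic
      (c : kb) |>.restrictScalars k
    exact h2.algHom (IsScalarTower.toAlgHom k kb Ω)
  apply tq_gen k' hDYC hONEF hIFD hUNI hALG hDSF htr s hs
  apply hORB k' Ω (tqD k' s hs) a b hΔ p hp _ _ hE hN 1 one_pos
  intro N
  obtain ⟨x', y', h', hx', hy', he⟩ := h N
  obtain ⟨T, hT⟩ := hlift x' y' h' hx' hy'
  refine ⟨T, ?_⟩
  apply EP.map_injective (LL (tqD k' s hs)).val
  rw [map_nsmul, hT, he, one_smul, EP.map_pt]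
  rfl

/-- divisible points for geometric sections, over a finite extension `k'` -/
theorem tq_geo (hHEN : ST_HEN) (hEDV : ST_EDV) [CharZero k] [IsAlgClosed Ω] [CharZero Ω]
    (s : (kb ≃ₐ[k] kb) →* (Ω ≃ₐ[K] Ω)) (hs : IsSection s) (hG : IsGeometric s)
    (k' : IntermediateField k kb) (a b : k') (hΔ : 4 * a ^ 3 + 27 * b ^ 2 ≠ 0) :
    ∃ (x y : Ω) (hxy : Eq3 a b x y), Transcendental k x ∧
      ∀ n : ℕ, 0 < n → ∃ (x' y' : Ω) (h' : Eq3 a b x' y'), InFix s k' x' ∧ InFix s k' y' ∧
        n • EP.pt hΔ x' y' h' = EP.pt hΔ x y hxy := by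
  have hicl : IsAlgClosure k' kb := icl k'
  have hchk' : CharZero k' := charZero_of_injective_algebraMap (algebraMap k k').injective
  have hka : Algebra.IsAlgebraic k kb := IsAlgClosure.isAlgebraic
  obtain ⟨O, hO, _⟩ := hG
  obtain ⟨hne, hk, hres, W, hW, hinv⟩ := hO
  have hex : ∃ u : K, u ∉ O := by
    by_contra hcon
    push Not at hcon
    apply hne
    exact eq_top_iff.2 fun x _ => hcon x
  obtain ⟨u, hu⟩ := hex
  have hu0 : u ≠ 0 := fun h => hu (by rw [h]; exact O.zero_mem)
  have hmem : ∀ x : K, algebraMap K Ω x ∈ W ↔ x ∈ O := by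
    intro x
    rw [← hW, ValuationSubring.mem_comap]
  have hkW0 : ∀ c : k, algebraMap k Ω c ∈ W := by
    intro c
    rw [IsScalarTower.algebraMap_apply k K Ω, hmem]
    exact hk c
  have halgW : ∀ x : Ω, IsAlgebraic k x → x ∈ W := by
    intro x hx
    obtain ⟨q, hq, hq0⟩ := hx.isIntegral
    have hint' : IsIntegral W x := by
      let φ : k →+* W := (algebraMap k Ω).codRestrict W.toSubring hkW0
      refine ⟨q.map φ, hq.map φ, ?_⟩
      rw [eval₂_map]
      exact hq0
    obtain ⟨z, hz⟩ := IsIntegrallyClosed.isIntegral_iff.1 hint'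
    rw [← hz]
    exact z.2
  have hkW : ∀ c : k', algebraMap k' Ω c ∈ W := by
    intro c
    apply halgW
    have h2 : IsAlgebraic k (c : kb) := Algebra.IsAlgebraic.isAlgebraic _
    exact h2.algHom (IsScalarTower.toAlgHom k kb Ω)
  have hinv' : ∀ (g : GG k' Ω) (x : Ω), ((tqD k' s hs).s g x ∈ W ↔ x ∈ W) := by
    intro g x
    rw [tqD_s]
    exact hinv _ x
  set U : Ω := algebraMap K Ω u with hUdef
  have hU0 : U ≠ 0 := by
    rw [hUdef]
    exact (_root_.map_ne_zero (algebraMap K Ω)).2 hu0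
  have huW : U ∉ W := fun h => hu ((hmem u).1 h)
  have hval : W.valuation U⁻¹ < 1 := by
    have h1 : ¬ W.valuation U ≤ 1 := fun h => huW ((W.valuation_le_one_iff _).1 h)
    rw [map_inv₀]
    exact inv_lt_one_of_one_lt₀ (not_le.1 h1)
  have hUD : U ∈ LL (tqD k' s hs) := (tq_mem k' s hs U).2 fun g => (s _).commutes u
  set α : Ω := algebraMap k' Ω a with hα
  set β : Ω := algebraMap k' Ω b with hβ
  have hαv : W.valuation α ≤ 1 := (W.valuation_le_one_iff _).2 (hkW a)
  have hβv : W.valuation β ≤ 1 := (W.valuation_le_one_iff _).2 (hkW b)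
  have hsm : W.valuation (α * U⁻¹ ^ 4 + β * U⁻¹ ^ 6) < 1 := by
    apply lt_of_le_of_lt (W.valuation.map_add _ _)
    apply max_lt
    · rw [map_mul, map_pow]
      exact mul_lt_one_of_nonneg_of_lt_one_right hαv zero_le (pow_lt_one₀ zero_le hval (by norm_num))
    · rw [map_mul, map_pow]
      exact mul_lt_one_of_nonneg_of_lt_one_right hβv zero_le (pow_lt_one₀ zero_le hval (by norm_num))
  have hvD : 1 + (α * U⁻¹ ^ 4 + β * U⁻¹ ^ 6) ∈ LL (tqD k' s hs) := by
    have hUi : U⁻¹ ∈ LL (tqD k' s hs) := inv_mem hUD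
    exact add_mem (one_mem _) (add_mem (mul_mem (algebraMap_mem _ a) (pow_mem hUi 4))
      (mul_mem (algebraMap_mem _ b) (pow_mem hUi 6)))
  obtain ⟨w, hw⟩ := hHEN k' Ω (tqD k' s hs) W hkW hinv' ⟨_, hvD⟩ (by
    show W.valuation (1 + (α * U⁻¹ ^ 4 + β * U⁻¹ ^ 6) - 1) < 1
    rw [add_sub_cancel_left]
    exact hsm) 2 (by norm_num)
  have hw' : 1 + (α * U⁻¹ ^ 4 + β * U⁻¹ ^ 6) = (w : Ω) ^ 2 := by
    have := congrArg (fun z : LL (tqD k' s hs) => (z : Ω)) hw
    simpa using this
  have hE : Eq3 a b (U ^ 2) (U ^ 3 * (w : Ω)) := by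
    unfold Eq3
    rw [mul_pow, ← hw']
    field_simp
    ring
  have hxW : U ^ 2 ∉ W := by
    intro h
    apply huW
    rw [← W.valuation_le_one_iff] at h ⊢
    by_contra hcon
    push Not at hcon
    rw [map_pow] at h
    exact absurd (one_lt_pow₀ hcon (by norm_num)) (not_lt.2 h)
  refine ⟨_, _, hE, fun halg => hxW (halgW _ halg), ?_⟩
  intro n hn
  obtain ⟨x', y', h', hx', hy', hn'⟩ := hEDV k' Ω (tqD k' s hs) W hkW hinv' a b hΔ _ _ hE
    (pow_mem hUD 2) (mul_mem (pow_mem hUD 3) w.2) hxW n hn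
  have hback : ∀ x : Ω, x ∈ LL (tqD k' s hs) → InFix s k' x := by
    intro x hx g hg
    have h1 := (tq_mem k' s hs x).1 hx
    let g' : kb ≃ₐ[k'] kb := AlgEquiv.ofRingEquiv (f := g.toRingEquiv) fun c => hg c c.2
    have h2 : g'.restrictScalars k = g := AlgEquiv.ext fun _ => rfl
    rw [← h2]
    exact h1 g'
  exact ⟨x', y', h', hback x' hx', hback y' hy', hn'⟩

end

end Pool.Agent.Helper18.NF
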