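import Pool.Agent.Helper18.NF.All2
import Pool.Agent.Helper18.NF.Top4

/-!
# Everything together, part 3
-/

set_option autoImplicit false

namespace Pool.Agent.Helper18.NF

open Pool.Agent.Helper14.BSC Pool.Agent.Helper14.BSC.Gen Polynomial

section

variable {k K kb Ω : Type} [Field k] [Field K] [Field kb] [Field Ω] [Algebra k K] [Algebra k kb]
  [Algebra kb Ω] [Algebra k Ω] [Algebra K Ω] [IsScalarTower k K Ω] [IsScalarTower k kb Ω]
  [Algebra.IsAlgebraic K Ω] [IsAlgClosure k kb]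

theorem all_any [NumberField k] [IsAlgClosed Ω]
    (htr : ∃ t : K, Transcendental k t ∧ Algebra.IsAlgebraic (IntermediateField.adjoin k {t}) K)
    (s : (kb ≃ₐ[k] kb) →* (Ω ≃ₐ[K] Ω)) (hs : IsSection s)
    (k' : IntermediateField k kb) [FiniteDimensional k k'] (A B : k'[X]) (hAB : IsCoprime A B)
    (hd : 2 ≤ max A.natDegree B.natDegree) (f : Ω) (hf : Transcendental k f)
    (h : ∀ N : ℕ, ∃ g : Ω, InFix s k' g ∧ (fun x : Ω => aeval x A / aeval x B)^[N] g = f) :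
    IsGeometric s :=
  tq_any nf_DYC x_ONEF all_IFD all_UNI all_ALG nf_DSF htr s hs k' A B hAB hd f hf h

theorem all_divk [NumberField k] [IsAlgClosed Ω] [CharZero Ω]
    (htr : ∃ t : K, Transcendental k t ∧ Algebra.IsAlgebraic (IntermediateField.adjoin k {t}) K)
    (s : (kb ≃ₐ[k] kb) →* (Ω ≃ₐ[K] Ω)) (hs : IsSection s)
    (k' : IntermediateField k kb) [FiniteDimensional k k'] (a b : k')
    (hΔ : 4 * a ^ 3 + 27 * b ^ 2 ≠ 0) (p : ℕ) (hp : 2 ≤ p) (x y : Ω) (hxy : Eq3 a b x y)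
    (hx : Transcendental k x)
    (h : ∀ N : ℕ, ∃ (x' y' : Ω) (h' : Eq3 a b x' y'), InFix s k' x' ∧ InFix s k' y' ∧
      p ^ N • EP.pt hΔ x' y' h' = EP.pt hΔ x y hxy) : IsGeometric s :=
  tq_div nf_DYC x_ONEF all_IFD all_UNI all_ALG nf_DSF nf_ORB htr s hs k' a b hΔ p hp x y hxy hx h

theorem all_geok [CharZero k] [IsAlgClosed Ω] [CharZero Ω]
    (s : (kb ≃ₐ[k] kb) →* (Ω ≃ₐ[K] Ω)) (hs : IsSection s) (hG : IsGeometric s)
    (k' : IntermediateField k kb) (a b : k') (hΔ : 4 * a ^ 3 + 27 * b ^ 2 ≠ 0) :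
    ∃ (x y : Ω) (hxy : Eq3 a b x y), Transcendental k x ∧
      ∀ n : ℕ, 0 < n → ∃ (x' y' : Ω) (h' : Eq3 a b x' y'), InFix s k' x' ∧ InFix s k' y' ∧
        n • EP.pt hΔ x' y' h' = EP.pt hΔ x y hxy :=
  tq_geo all_HEN nf_EDV s hs hG k' a b hΔ

end

end Pool.Agent.Helper18.NF
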