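import Pool.Agent.Helper18.NF.Stmts

set_option autoImplicit false

/-! # SYS: systems of places over all embeddings -/

namespace Pool.Agent.Helper18.NF

open Pool.Agent.Helper14.BSC Polynomial

theorem st_SYS (hT : ST_TSX) (hR : ST_RK) : ST_SYS := by
  intro k Ω _ _ _ _ _ D p _
  set E : IntermediateField ℚ_[p] ℂ_[p] := ⊥ with hE
  have hEf : FiniteDimensional ℚ_[p] E := by rw [hE]; infer_instance
  set j : ℚ →+* ℂ_[p] := (algebraMap ℚ_[p] ℂ_[p]).comp (algebraMap ℚ ℚ_[p]) with hj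
  have hjE : ∀ a, j a ∈ E := fun a => E.algebraMap_mem _
  obtain ⟨T, hTj, hTall, hTE⟩ := hT k ℚ p j E hEf hjE
  have hQ : ∀ i, Nonempty (Place D p (T.σ i)) := by
    intro i
    obtain ⟨E₁, hE₁, h1, _⟩ := hTE i
    obtain ⟨Q, _⟩ := hR k Ω D p (T.σ i) E₁ hE₁ h1
    exact ⟨Q⟩
  refine ⟨⟨T, hQ⟩, ?_⟩
  intro σ P
  obtain ⟨i0, hi0⟩ := hTall σ (fun a => by
    have h1 : σ.comp (algebraMap ℚ k) = j := Subsingleton.elim _ _
    exact congrFun (congrArg DFunLike.coe h1) a)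
  subst hi0
  refine ⟨T, Function.update (fun i => (hQ i).some) i0 P, i0, rfl, fun x z => ?_⟩
  rw [Function.update_self]

end Pool.Agent.Helper18.NF
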