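import Pool.Agent.Helper18.NF.Stmts2

/-!
# Birational sections over number fields and rational dynamics: exact statements, part 3
-/

set_option autoImplicit false

namespace Pool.Agent.Helper18.NF

open Pool.Agent.Helper14.BSC Polynomial

/-- DSF: algebraic values over a finite extension `k'` of `k` give algebraic values over `k`. -/
def ST_DSF : Prop :=
  ∀ (k k' Ω : Type) [Field k] [Field k'] [Field Ω] [Algebra k Ω] [Algebra k' Ω] [Algebra k k']
    [IsScalarTower k k' Ω] [CharZero k] [CharZero k'] [IsAlgClosed Ω] [FiniteDimensional k k']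
    (D : Sec k Ω) (D' : Sec k' Ω), (∀ x : Ω, (∀ g, D.s g x = x) → ∀ g, D'.s g x = x) →
    (∀ y z : LL D', (∀ c : k', y ≠ algebraMap k' (LL D') c) → ∃ G : Polynomial (Polynomial k'),
      G ≠ 0 ∧ Polynomial.eval₂ (Polynomial.aeval y).toRingHom z G = 0) →
    ∀ f' : LL D', NC D' f' → ∀ F' : k'[X], F' ≠ 0 → RootFin D' f' F' →
    ∀ x : LL D, NC D x → ∃ F : k[X], F ≠ 0 ∧ RootFin D x F

/-- EDV: points of `E(LL D)` in the kernel of reduction at an invariant valuation ring containing `k`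
are divisible. -/
def ST_EDV : Prop :=
  ∀ (k Ω : Type) [Field k] [Field Ω] [Algebra k Ω] [CharZero k] [CharZero Ω] [IsAlgClosed Ω]
    (D : Sec k Ω) (W : ValuationSubring Ω), (∀ c : k, algebraMap k Ω c ∈ W) →
    (∀ (g : GG k Ω) (x : Ω), (D.s g x ∈ W ↔ x ∈ W)) →
    ∀ (a b : k) (hΔ : 4 * a ^ 3 + 27 * b ^ 2 ≠ 0) (x y : Ω) (h : Eq3 a b x y), x ∈ LL D →
    y ∈ LL D → x ∉ W → ∀ n : ℕ, 1 ≤ n → ∃ (x' y' : Ω) (h' : Eq3 a b x' y'), x' ∈ LL D ∧
      y' ∈ LL D ∧ n • EP.pt hΔ x' y' h' = EP.pt hΔ x y h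

end Pool.Agent.Helper18.NF
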