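import Pool.Agent.Helper18.NF.Stmts2
import Pool.Agent.Helper14.BSC.TopKb

/-!
# Theorems A, B, C over arbitrary algebraic closures `kb` of `k` and `Ω` of `K`
-/

set_option autoImplicit false

namespace Pool.Agent.Helper18.NF

open Pool.Agent.Helper14.BSC Pool.Agent.Helper14.BSC.Gen Polynomial

section

variable {k K kb Ω : Type} [Field k] [Field K] [Field kb] [Field Ω] [Algebra k K] [Algebra k kb]
  [Algebra kb Ω] [Algebra k Ω] [Algebra K Ω] [IsScalarTower k K Ω] [IsScalarTower k kb Ω]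
  [Algebra.IsAlgebraic K Ω] [IsAlgClosure k kb]

theorem tp_NC (s : (kb ≃ₐ[k] kb) →* (Ω ≃ₐ[K] Ω)) (hs : IsSection s) (f : LL (topD s hs)) :
    NC (topD s hs) f ↔ (f : Ω) ∉ (algebraMap k Ω).range := by
  constructor
  · rintro h ⟨c, hc⟩
    exact h c (Subtype.ext hc.symm)
  · intro h c hc
    apply h
    exact ⟨c, (congrArg (fun z : LL (topD s hs) => (z : Ω)) hc).symm⟩

theorem tp_dl (D : Sec k Ω) (A B : k[X]) (g : LL D) (N : ℕ) :
    (((dl A B)^[N] g : LL D) : Ω) = (fun x : Ω => aeval x A / aeval x B)^[N] (g : Ω) := by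
  induction N with
  | zero => rfl
  | succ N ih =>
    rw [Function.iterate_succ_apply', Function.iterate_succ_apply', ← ih]
    have h1 : ∀ (x : LL D) (G : k[X]), ((aeval x G : LL D) : Ω) = aeval (x : Ω) G := by
      intro x G
      have := aeval_algHom_apply (LL D).val x G
      exact this.symm
    show ((aeval _ A / aeval _ B : LL D) : Ω) = _
    rw [IntermediateField.coe_div, h1, h1]

/-- Theorem C from its section version. -/
theorem tp_main (hDYC : ST_DYC) (hONEF : Pool.Agent.Helper22.TW.ST_ONEF) (hIFD : ST_IFD)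
    (hUNI : ST_UNI) (hALG : ST_ALG) [NumberField k] [IsAlgClosed Ω]
    (htr : ∃ t : K, Transcendental k t ∧ Algebra.IsAlgebraic (IntermediateField.adjoin k {t}) K)
    (s : (kb ≃ₐ[k] kb) →* (Ω ≃ₐ[K] Ω)) (hs : IsSection s)
    (h : ∃ A B : k[X], Dyn A B ∧ ∃ f : LL (topD s hs), NC (topD s hs) f ∧
      Back (topD s hs) A B f) : IsGeometric s := by
  obtain ⟨A, B, hAB, f, hf, hback⟩ := h
  have : CharZero K := charZero_of_injective_algebraMap (algebraMap k K).injective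
  have hk : (⊤ : IntermediateField ℚ k).FG := by
    rw [IntermediateField.fg_top_iff]
    infer_instance
  obtain ⟨G, hG, hroot⟩ := hDYC k Ω (topD s hs) A B hAB f hf hback
  obtain ⟨p, hp, σ, P, hP⟩ := hONEF k Ω (topD s hs) hk f G hf hG hroot
    (hALG k K Ω (topD s hs) htr)
  have := hp
  have htK : ∃ t : K, Transcendental k t := by
    obtain ⟨t, ht, _⟩ := htr
    exact ⟨t, ht⟩
  have hfix : ∀ (g : GG k Ω) (x : K), (topD s hs).s g (algebraMap K Ω x) = algebraMap K Ω x :=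
    fun g x => (s _).commutes x
  obtain ⟨O, hO⟩ := hIFD k K Ω (topD s hs) p σ P htK hfix hP
  refine ⟨O, (top_geo s hs O).2 hO, ?_⟩
  intro O' hO'
  exact hUNI k K Ω (topD s hs) hk hfix O' O ((top_geo s hs O').1 hO') hO

/-- the dynamical criterion -/
theorem tp_dyn (hDYC : ST_DYC) (hONEF : Pool.Agent.Helper22.TW.ST_ONEF) (hIFD : ST_IFD)
    (hUNI : ST_UNI) (hALG : ST_ALG) [NumberField k] [IsAlgClosed Ω]
    (htr : ∃ t : K, Transcendental k t ∧ Algebra.IsAlgebraic (IntermediateField.adjoin k {t}) K)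
    (s : (kb ≃ₐ[k] kb) →* (Ω ≃ₐ[K] Ω)) (hs : IsSection s)
    (A B : k[X]) (hAB : Dyn A B) (f : Ω) (hf : ∀ g, s g f = f) (hfk : f ∉ (algebraMap k Ω).range)
    (hb : ∀ N : ℕ, ∃ g : Ω, (∀ σ, s σ g = g) ∧ (fun x : Ω => aeval x A / aeval x B)^[N] g = f) :
    IsGeometric s := by
  apply tp_main hDYC hONEF hIFD hUNI hALG htr s hs
  have hfD : f ∈ LL (topD s hs) := (top_mem s hs f).2 hf
  refine ⟨A, B, hAB, ⟨f, hfD⟩, (tp_NC s hs _).2 hfk, fun N => ?_⟩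
  obtain ⟨g, hg, hN⟩ := hb N
  refine ⟨⟨g, (top_mem s hs g).2 hg⟩, Subtype.ext ?_⟩
  rw [tp_dl]
  exact hN

/-- one prime, one direction -/
theorem tp_pow (hDYC : ST_DYC) (hONEF : Pool.Agent.Helper22.TW.ST_ONEF) (hIFD : ST_IFD)
    (hUNI : ST_UNI) (hALG : ST_ALG) (hPWR : ST_PWR) [NumberField k] [IsAlgClosed Ω]
    (htr : ∃ t : K, Transcendental k t ∧ Algebra.IsAlgebraic (IntermediateField.adjoin k {t}) K)
    (s : (kb ≃ₐ[k] kb) →* (Ω ≃ₐ[K] Ω)) (hs : IsSection s) (p : ℕ) (hp : 2 ≤ p)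
    (f : Ω) (hf : ∀ g, s g f = f) (hfk : f ∉ (algebraMap k Ω).range) (a : k) (ha : a ≠ 0)
    (hb : ∀ N : ℕ, ∃ g : Ω, (∀ σ, s σ g = g) ∧ f = algebraMap k Ω a * g ^ p ^ N) :
    IsGeometric s := by
  apply tp_main hDYC hONEF hIFD hUNI hALG htr s hs
  have hfD : f ∈ LL (topD s hs) := (top_mem s hs f).2 hf
  obtain ⟨A, B, hAB, x, hx, hback⟩ := hPWR k Ω (topD s hs) p hp ⟨f, hfD⟩ a
    ((tp_NC s hs _).2 hfk) ha (fun N => by
      obtain ⟨g, hg, hN⟩ := hb N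
      refine ⟨⟨g, (top_mem s hs g).2 hg⟩, Subtype.ext ?_⟩
      rw [IntermediateField.coe_mul, IntermediateField.coe_pow]
      exact hN)
  exact ⟨A, B, hAB, x, hx, hback⟩

/-- geometric sections -/
theorem tp_conv (hCVP : ST_CVP) [CharZero k] [IsAlgClosed Ω]
    (s : (kb ≃ₐ[k] kb) →* (Ω ≃ₐ[K] Ω)) (hs : IsSection s) (hG : IsGeometric s) :
    ∃ f : K, f ∉ (algebraMap k K).range ∧ ∀ n : ℕ, 0 < n → ∃ g : Ω, (∀ σ, s σ g = g) ∧
      algebraMap K Ω f = g ^ n := by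
  obtain ⟨O, hO, _⟩ := hG
  obtain ⟨f, hf, hn⟩ := hCVP k K Ω (topD s hs) O (fun g x => (s _).commutes x)
    ((top_geo s hs O).1 hO)
  refine ⟨f, ?_, fun n hn0 => ?_⟩
  · rintro ⟨c, hc⟩
    exact hf c hc.symm
  · obtain ⟨g, hg⟩ := hn n hn0
    exact ⟨g, (top_mem s hs g).1 g.2, hg⟩

/-- Theorem A -/
theorem tp_ell (hDYC : ST_DYC) (hONEF : Pool.Agent.Helper22.TW.ST_ONEF) (hIFD : ST_IFD)
    (hUNI : ST_UNI) (hALG : ST_ALG) (hTRF : ST_TRF) (hDVB : ST_DVB) (hORB : ST_ORB)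
    [NumberField k] [IsAlgClosed Ω]
    (htr : ∃ t : K, Transcendental k t ∧ Algebra.IsAlgebraic (IntermediateField.adjoin k {t}) K)
    (s : (kb ≃ₐ[k] kb) →* (Ω ≃ₐ[K] Ω)) (hs : IsSection s) (a b : k)
    (hΔ : 4 * a ^ 3 + 27 * b ^ 2 ≠ 0) (p : ℕ) (hp : 2 ≤ p) (hB : BddSelmer kb a b p)
    (x y : Ω) (hx : ∀ g, s g x = x) (hy : ∀ g, s g y = y)
    (hxy : y ^ 2 = x ^ 3 + algebraMap k Ω a * x + algebraMap k Ω b)
    (hxk : x ∉ (algebraMap k Ω).range) : IsGeometric s := by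
  apply tp_main hDYC hONEF hIFD hUNI hALG htr s hs
  set D := topD s hs with hD
  have : CharZero Ω := charZero_of_injective_algebraMap (algebraMap k Ω).injective
  have : CharZero (LL D) := charZero_of_injective_algebraMap (algebraMap k (LL D)).injective
  have hxD : x ∈ LL D := (top_mem s hs x).2 hx
  have hyD : y ∈ LL D := (top_mem s hs y).2 hy
  have hE : Eq3 a b (⟨x, hxD⟩ : LL D) ⟨y, hyD⟩ := by
    unfold Eq3
    apply Subtype.ext
    exact hxy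
  have hN : NC D ⟨x, hxD⟩ := (tp_NC s hs _).2 hxk
  have hB' : BddSelmer (Acl k Ω) a b p := hTRF k kb (Acl k Ω) (topE k kb Ω) a b p hB
  obtain ⟨e, he, hdiv⟩ := hDVB k Ω D a b hΔ p (by omega) hB' ⟨x, hxD⟩ ⟨y, hyD⟩ hE hN
  exact hORB k Ω D a b hΔ p hp ⟨x, hxD⟩ ⟨y, hyD⟩ hE hN e he hdiv

/-- backward orbits from one prime -/
theorem tp_back (hPWR : ST_PWR) [CharZero k] [IsAlgClosed Ω]
    (s : (kb ≃ₐ[k] kb) →* (Ω ≃ₐ[K] Ω)) (hs : IsSection s) (p : ℕ) (hp : 2 ≤ p)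
    (f : Ω) (hf : ∀ g, s g f = f) (hfk : f ∉ (algebraMap k Ω).range) (a : k) (ha : a ≠ 0)
    (hb : ∀ N : ℕ, ∃ g : Ω, (∀ σ, s σ g = g) ∧ f = algebraMap k Ω a * g ^ p ^ N) :
    ∃ A B : k[X], Dyn A B ∧ ∃ x : Ω, (∀ g, s g x = x) ∧ x ∉ (algebraMap k Ω).range ∧
      ∀ N : ℕ, ∃ g : Ω, (∀ σ, s σ g = g) ∧ (fun x : Ω => aeval x A / aeval x B)^[N] g = x := by
  have hfD : f ∈ LL (topD s hs) := (top_mem s hs f).2 hf
  obtain ⟨A, B, hAB, x, hx, hback⟩ := hPWR k Ω (topD s hs) p hp ⟨f, hfD⟩ a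
    ((tp_NC s hs _).2 hfk) ha (fun N => by
      obtain ⟨g, hg, hN⟩ := hb N
      refine ⟨⟨g, (top_mem s hs g).2 hg⟩, Subtype.ext ?_⟩
      rw [IntermediateField.coe_mul, IntermediateField.coe_pow]
      exact hN)
  refine ⟨A, B, hAB, x, (top_mem s hs _).1 x.2, (tp_NC s hs _).1 hx, fun N => ?_⟩
  obtain ⟨g, hg⟩ := hback N
  refine ⟨g, (top_mem s hs _).1 g.2, ?_⟩
  rw [← tp_dl, hg]

end

end Pool.Agent.Helper18.NF
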