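import Pool.Agent.Helper18.NF.Stmts3
import Pool.Agent.Helper18.NF.Top

/-!
# Elliptic curves over finite extensions of `k`
-/

set_option autoImplicit false

namespace Pool.Agent.Helper18.NF

open Pool.Agent.Helper14.BSC Pool.Agent.Helper14.BSC.Gen Polynomial

section

variable {k K kb Ω : Type} [Field k] [Field K] [Field kb] [Field Ω] [Algebra k K] [Algebra k kb]
  [Algebra kb Ω] [Algebra k Ω] [Algebra K Ω] [IsScalarTower k K Ω] [IsScalarTower k kb Ω]
  [Algebra.IsAlgebraic K Ω] [IsAlgClosure k kb]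
  (k' : Type) [Field k'] [Algebra k k'] [Algebra k' kb] [Algebra k' Ω] [IsScalarTower k k' kb]
  [IsScalarTower k' kb Ω] [IsAlgClosure k' kb]

omit [Algebra k K] [Algebra k Ω] [IsScalarTower k K Ω] [IsScalarTower k kb Ω]
  [Algebra.IsAlgebraic K Ω] [IsAlgClosure k kb] [IsAlgClosure k' kb] in
theorem tq_com (s : (kb ≃ₐ[k] kb) →* (Ω ≃ₐ[K] Ω)) (hs : IsSection s) (g : kb ≃ₐ[k'] kb) (c : k') :
    s (g.restrictScalars k) (algebraMap k' Ω c) = algebraMap k' Ω c := by
  rw [IsScalarTower.algebraMap_apply k' kb Ω, hs.2]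
  show algebraMap kb Ω (g (algebraMap k' kb c)) = _
  rw [g.commutes]

/-- the restriction of the section to `Gal(kb / k')` -/
noncomputable def tqS (s : (kb ≃ₐ[k] kb) →* (Ω ≃ₐ[K] Ω)) (hs : IsSection s) :
    (kb ≃ₐ[k'] kb) →* (Ω ≃ₐ[k'] Ω) where
  toFun g := AlgEquiv.ofRingEquiv (f := (s (g.restrictScalars k)).toRingEquiv)
    (fun c => tq_com k' s hs g c)
  map_one' := by
    apply AlgEquiv.ext
    intro x
    show s ((1 : kb ≃ₐ[k'] kb).restrictScalars k) x = x
    have h1 : (1 : kb ≃ₐ[k'] kb).restrictScalars k = 1 := rfl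
    rw [h1, map_one]
    rfl
  map_mul' g h := by
    apply AlgEquiv.ext
    intro x
    show s ((g * h).restrictScalars k) x = s (g.restrictScalars k) (s (h.restrictScalars k) x)
    have h1 : (g * h).restrictScalars k = g.restrictScalars k * h.restrictScalars k := rfl
    rw [h1, map_mul]
    rfl

omit [IsScalarTower k K Ω] [IsScalarTower k kb Ω] [Algebra.IsAlgebraic K Ω] [IsAlgClosure k kb]
  [IsAlgClosure k' kb] [Algebra k K] [Algebra k Ω] in
theorem tqS_apply (s : (kb ≃ₐ[k] kb) →* (Ω ≃ₐ[K] Ω)) (hs : IsSection s) (g : kb ≃ₐ[k'] kb) (x : Ω) :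
    tqS k' s hs g x = s (g.restrictScalars k) x := rfl

/-- the lift over `k'` -/
noncomputable def tqD (s : (kb ≃ₐ[k] kb) →* (Ω ≃ₐ[K] Ω)) (hs : IsSection s) : Sec k' Ω where
  s := (tqS k' s hs).comp (AlgEquiv.autCongr (topE k' kb Ω)).symm.toMonoidHom
  ext := fun g x => by
    obtain ⟨y, rfl⟩ := (topE k' kb Ω).surjective x
    show s (((AlgEquiv.autCongr (topE k' kb Ω)).symm g).restrictScalars k)
      ((topE k' kb Ω y : Acl k' Ω) : Ω) = _
    rw [topE_coe, hs.2, ← topE_coe (k := k') (kb := kb) (Ω := Ω)]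
    have h1 : topE k' kb Ω ((((AlgEquiv.autCongr (topE k' kb Ω)).symm g).restrictScalars k) y) =
        g (topE k' kb Ω y) := (topE k' kb Ω).apply_symm_apply _
    exact congrArg (fun z : Acl k' Ω => (z : Ω)) h1
  fin := fun x => by
    classical
    obtain ⟨E, hE⟩ := top_fin s hs.1 x
    refine ⟨E.image (topE k' kb Ω), fun g hg => hE _ (fun a ha => ?_)⟩
    have h1 := hg _ (Finset.mem_image_of_mem _ ha)
    show (topE k' kb Ω).symm (g (topE k' kb Ω a)) = a
    rw [h1]
    simp

theorem tqD_s (s : (kb ≃ₐ[k] kb) →* (Ω ≃ₐ[K] Ω)) (hs : IsSection s) (g : GG k' Ω) (x : Ω) :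
    (tqD k' s hs).s g x =
      s (((AlgEquiv.autCongr (topE k' kb Ω)).symm g).restrictScalars k) x := rfl

theorem tq_mem (s : (kb ≃ₐ[k] kb) →* (Ω ≃ₐ[K] Ω)) (hs : IsSection s) (x : Ω) :
    x ∈ LL (tqD k' s hs) ↔ ∀ g : kb ≃ₐ[k'] kb, s (g.restrictScalars k) x = x := by
  constructor
  · intro h g
    have h1 := h (AlgEquiv.autCongr (topE k' kb Ω) g) (fun a ha => absurd ha (Set.notMem_empty a))
    rwa [tqD_s, MulEquiv.symm_apply_apply] at h1
  · intro h g _
    exact h _

/-- from algebraic values to geometricity -/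
theorem tq_main (hONEF : Pool.Agent.Helper22.TW.ST_ONEF) (hIFD : ST_IFD)
    (hUNI : ST_UNI) (hALG : ST_ALG) [NumberField k] [IsAlgClosed Ω]
    (htr : ∃ t : K, Transcendental k t ∧ Algebra.IsAlgebraic (IntermediateField.adjoin k {t}) K)
    (s : (kb ≃ₐ[k] kb) →* (Ω ≃ₐ[K] Ω)) (hs : IsSection s)
    (h : ∃ f : LL (topD s hs), NC (topD s hs) f ∧ ∃ G : k[X], G ≠ 0 ∧
      RootFin (topD s hs) f G) : IsGeometric s := by
  obtain ⟨f, hf, G, hG, hroot⟩ := h
  have : CharZero K := charZero_of_injective_algebraMap (algebraMap k K).injective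
  have hk : (⊤ : IntermediateField ℚ k).FG := by
    rw [IntermediateField.fg_top_iff]
    infer_instance
  obtain ⟨p, hp, σ, P, hP⟩ := hONEF k Ω (topD s hs) hk f G hf hG hroot
    (hALG k K Ω (topD s hs) htr)
  have := hp
  have htK : ∃ t : K, Transcendental k t := by
    obtain ⟨t, ht, _⟩ := htr
    exact ⟨t, ht⟩
  have hfix : ∀ (g : GG k Ω) (x : K), (topD s hs).s g (algebraMap K Ω x) = algebraMap K Ω x :=
    fun g x => (s _).commutes x
  obtain ⟨O, hO⟩ := hIFD k K Ω (topD s hs) p σ P htK hfix hP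
  refine ⟨O, (top_geo s hs O).2 hO, ?_⟩
  intro O' hO'
  exact hUNI k K Ω (topD s hs) hk hfix O' O ((top_geo s hs O').1 hO') hO

/-- Theorem A over a finite extension -/
theorem tq_ell (hDYC : ST_DYC) (hONEF : Pool.Agent.Helper22.TW.ST_ONEF) (hIFD : ST_IFD)
    (hUNI : ST_UNI) (hALG : ST_ALG) (hTRF : ST_TRF) (hDVB : ST_DVB) (hORB : ST_ORB)
    (hDSF : ST_DSF) [NumberField k] [NumberField k'] [FiniteDimensional k k'] [IsAlgClosed Ω]
    (htr : ∃ t : K, Transcendental k t ∧ Algebra.IsAlgebraic (IntermediateField.adjoin k {t}) K)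
    (s : (kb ≃ₐ[k] kb) →* (Ω ≃ₐ[K] Ω)) (hs : IsSection s) (a b : k')
    (hΔ : 4 * a ^ 3 + 27 * b ^ 2 ≠ 0) (p : ℕ) (hp : 2 ≤ p) (hB : BddSelmer kb a b p)
    (x y : Ω) (hx : ∀ g : kb ≃ₐ[k'] kb, s (g.restrictScalars k) x = x)
    (hy : ∀ g : kb ≃ₐ[k'] kb, s (g.restrictScalars k) y = y)
    (hxy : y ^ 2 = x ^ 3 + algebraMap k' Ω a * x + algebraMap k' Ω b)
    (hxk : x ∉ (algebraMap k' Ω).range) : IsGeometric s := by
  have hst : IsScalarTower k k' Ω := by
    refine IsScalarTower.of_algebraMap_eq fun c => ?_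
    rw [IsScalarTower.algebraMap_apply k' kb Ω, ← IsScalarTower.algebraMap_apply k k' kb,
      ← IsScalarTower.algebraMap_apply k kb Ω]
  apply tq_main hONEF hIFD hUNI hALG htr s hs
  set D := topD s hs with hD
  set D' := tqD k' s hs with hD'
  have : CharZero Ω := charZero_of_injective_algebraMap (algebraMap k Ω).injective
  have : CharZero (LL D') := charZero_of_injective_algebraMap (algebraMap k' (LL D')).injective
  have : CharZero K := charZero_of_injective_algebraMap (algebraMap k K).injective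
  have hxD : x ∈ LL D' := (tq_mem k' s hs x).2 hx
  have hyD : y ∈ LL D' := (tq_mem k' s hs y).2 hy
  have hE : Eq3 a b (⟨x, hxD⟩ : LL D') ⟨y, hyD⟩ := by
    unfold Eq3
    apply Subtype.ext
    exact hxy
  have hN : NC D' ⟨x, hxD⟩ := by
    intro c hc
    apply hxk
    exact ⟨c, (congrArg (fun z : LL D' => (z : Ω)) hc).symm⟩
  have hB' : BddSelmer (Acl k' Ω) a b p := hTRF k' kb (Acl k' Ω) (topE k' kb Ω) a b p hB
  obtain ⟨e, he, hdiv⟩ := hDVB k' Ω D' a b hΔ p (by omega) hB' ⟨x, hxD⟩ ⟨y, hyD⟩ hE hN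
  obtain ⟨A, B, hAB, f, hf, hback⟩ := hORB k' Ω D' a b hΔ p hp ⟨x, hxD⟩ ⟨y, hyD⟩ hE hN e he hdiv
  obtain ⟨G, hG, hroot⟩ := hDYC k' Ω D' A B hAB f hf hback
  have hsub : ∀ z : Ω, (∀ g, D.s g z = z) → ∀ g, D'.s g z = z := by
    intro z hz g
    have h1 : ∀ g, s g z = z := (top_mem s hs z).1 (fun g _ => hz g)
    exact h1 _
  obtain ⟨t, ht, hta⟩ := htr
  have htD : algebraMap K Ω t ∈ LL D := (top_mem s hs _).2 (fun g => (s g).commutes t)
  have htN : NC D ⟨_, htD⟩ := by
    rw [tp_NC]
    apply top_range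
    rintro ⟨c, hc⟩
    apply ht
    rw [← hc]
    exact isAlgebraic_algebraMap c
  have halg : ∀ y z : LL D', (∀ c : k', y ≠ algebraMap k' (LL D') c) →
      ∃ G : Polynomial (Polynomial k'), G ≠ 0 ∧
        Polynomial.eval₂ (Polynomial.aeval y).toRingHom z G = 0 := by
    have hKt : Algebra.IsAlgebraic k k' := inferInstance
    have htk' : Transcendental k' (algebraMap K Ω t) := by
      intro halg
      have h1 : IsAlgebraic k (algebraMap K Ω t) := halg.restrictScalars k
      exact ht ((isAlgebraic_algebraMap_iff (algebraMap K Ω).injective).1 h1)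
    have hall : Algebra.IsAlgebraic (IntermediateField.adjoin k' {algebraMap K Ω t}) Ω := by
      refine ⟨fun w => ?_⟩
      have h1 : IsAlgebraic K w := Algebra.IsAlgebraic.isAlgebraic w
      set F : IntermediateField k' Ω := IntermediateField.adjoin k' {algebraMap K Ω t} with hF
      have hKF : ∀ u : K, IsAlgebraic F (algebraMap K Ω u) := by
        intro u
        obtain ⟨q, hq0, hq⟩ := hta.isAlgebraic u
        have hmap : ∀ v : IntermediateField.adjoin k {t}, algebraMap K Ω (v : K) ∈ F := by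
          intro v
          have hle : IntermediateField.adjoin k {t} ≤
              (F.restrictScalars k).comap (IsScalarTower.toAlgHom k K Ω) := by
            rw [IntermediateField.adjoin_simple_le_iff]
            show algebraMap K Ω t ∈ F
            exact IntermediateField.mem_adjoin_simple_self k' _
          exact hle v.2
        let φ : IntermediateField.adjoin k {t} →+* F :=
          ((algebraMap K Ω).comp (algebraMap (IntermediateField.adjoin k {t}) K)).codRestrict
            F.toSubfield hmap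
        refine ⟨q.map φ, (Polynomial.map_ne_zero_iff φ.injective).2 hq0, ?_⟩
        have h2 : aeval (algebraMap K Ω u) (q.map φ) =
            eval₂ ((algebraMap K Ω).comp (algebraMap (IntermediateField.adjoin k {t}) K))
              (algebraMap K Ω u) q := by
          rw [aeval_def, eval₂_map]
          rfl
        rw [h2, ← hom_eval₂]
        have h3 : eval₂ (algebraMap (IntermediateField.adjoin k {t}) K) u q = 0 := hq
        rw [h3, map_zero]
      set F' : IntermediateField F Ω := algebraicClosure F Ω with hF'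
      obtain ⟨q, hq0, hq⟩ := h1
      have hmap : ∀ u : K, algebraMap K Ω u ∈ F' := fun u => mem_algebraicClosure_iff.2 (hKF u)
      let ψ : K →+* F' := (algebraMap K Ω).codRestrict F'.toSubfield hmap
      have h4 : IsAlgebraic F' w := by
        refine ⟨q.map ψ, (Polynomial.map_ne_zero_iff ψ.injective).2 hq0, ?_⟩
        have h2 : aeval w (q.map ψ) = eval₂ (algebraMap K Ω) w q := by
          rw [aeval_def, eval₂_map]
          rfl
        rw [h2]
        exact hq
      have : Algebra.IsAlgebraic F F' := inferInstance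
      exact h4.restrictScalars F
    exact hALG k' Ω Ω D' ⟨algebraMap K Ω t, htk', hall⟩
  obtain ⟨F, hF, hRF⟩ := hDSF k k' Ω D D' hsub halg f hf G hG hroot ⟨_, htD⟩ htN
  exact ⟨⟨_, htD⟩, htN, F, hF, hRF⟩

end

end Pool.Agent.Helper18.NF
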